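import Pool.Agent.W78.GR.Defs

/-!
Project GR (helper78): basic facts on the real quadratic order: embeddings, units, angles, the
fundamental domain.
-/

set_option autoImplicit false

namespace Pool.Agent.W78.GR

open Finset Filter
open Pool.Agent.H376R2.MR

variable {t c : ℤ} {η : (Qd t c)ˣ}

/-! ### the embeddings -/

lemma s1_add (z u : Qd t c) : s1 (z + u) = s1 z + s1 u := by
  unfold s1
  simp only [QuadraticAlgebra.re_add, QuadraticAlgebra.im_add]
  push_cast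
  ring

lemma s2_add (z u : Qd t c) : s2 (z + u) = s2 z + s2 u := by
  unfold s2
  simp only [QuadraticAlgebra.re_add, QuadraticAlgebra.im_add]
  push_cast
  ring

lemma s1_neg (z : Qd t c) : s1 (-z) = -s1 z := by
  unfold s1
  simp only [QuadraticAlgebra.re_neg, QuadraticAlgebra.im_neg]
  push_cast
  ring

lemma s2_neg (z : Qd t c) : s2 (-z) = -s2 z := by
  unfold s2
  simp only [QuadraticAlgebra.re_neg, QuadraticAlgebra.im_neg]
  push_cast
  ring

lemma s1_natCast (n : ℕ) : s1 (n : Qd t c) = n := by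
  unfold s1
  rw [QuadraticAlgebra.re_natCast, QuadraticAlgebra.im_natCast]
  push_cast
  ring

lemma s2_natCast (n : ℕ) : s2 (n : Qd t c) = n := by
  unfold s2
  rw [QuadraticAlgebra.re_natCast, QuadraticAlgebra.im_natCast]
  push_cast
  ring

lemma s1_one : s1 (1 : Qd t c) = 1 := by
  have := s1_natCast (t := t) (c := c) 1
  rwa [Nat.cast_one, Nat.cast_one] at this

lemma s2_one : s2 (1 : Qd t c) = 1 := by
  have := s2_natCast (t := t) (c := c) 1
  rwa [Nat.cast_one, Nat.cast_one] at this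

lemma s1_zero : s1 (0 : Qd t c) = 0 := by
  have := s1_natCast (t := t) (c := c) 0
  rwa [Nat.cast_zero, Nat.cast_zero] at this

lemma s2_zero : s2 (0 : Qd t c) = 0 := by
  have := s2_natCast (t := t) (c := c) 0
  rwa [Nat.cast_zero, Nat.cast_zero] at this

lemma s1_star (z : Qd t c) : s1 (star z) = s2 z := by
  unfold s1 s2
  rw [QuadraticAlgebra.re_star, QuadraticAlgebra.im_star]
  push_cast
  ring

lemma s2_star (z : Qd t c) : s2 (star z) = s1 z := by
  unfold s1 s2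
  rw [QuadraticAlgebra.re_star, QuadraticAlgebra.im_star]
  push_cast
  ring

section
variable (hd : 4 * c < t ^ 2)
include hd

lemma disc_pos : (0 : ℝ) < (t : ℝ) ^ 2 - 4 * c := by
  have : ((4 * c : ℤ) : ℝ) < ((t ^ 2 : ℤ) : ℝ) := by exact_mod_cast hd
  push_cast at this
  linarith

lemma sq_sd : Real.sqrt ((t : ℝ) ^ 2 - 4 * c) * Real.sqrt ((t : ℝ) ^ 2 - 4 * c) =
    (t : ℝ) ^ 2 - 4 * c := Real.mul_self_sqrt (disc_pos hd).le

lemma sd_pos : 0 < Real.sqrt ((t : ℝ) ^ 2 - 4 * c) := Real.sqrt_pos.2 (disc_pos hd)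

lemma s1_mul (z u : Qd t c) : s1 (z * u) = s1 z * s1 u := by
  have h := sq_sd hd
  unfold s1
  simp only [QuadraticAlgebra.re_mul, QuadraticAlgebra.im_mul]
  push_cast
  linear_combination (-(z.im : ℝ) * u.im / 4) * h

lemma s2_mul (z u : Qd t c) : s2 (z * u) = s2 z * s2 u := by
  have h := sq_sd hd
  unfold s2
  simp only [QuadraticAlgebra.re_mul, QuadraticAlgebra.im_mul]
  push_cast
  linear_combination (-(z.im : ℝ) * u.im / 4) * h

lemma s1_mul_s2 (z : Qd t c) :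
    s1 z * s2 z = (z.re : ℝ) ^ 2 + t * z.re * z.im + c * (z.im : ℝ) ^ 2 := by
  have h := sq_sd hd
  unfold s1 s2
  linear_combination (-(z.im : ℝ) ^ 2 / 4) * h

lemma abs_s1_mul_s2 (z : Qd t c) : |s1 z * s2 z| = nm z := by
  rw [s1_mul_s2 hd]
  unfold nm
  rw [Nat.cast_natAbs, Int.cast_abs]
  push_cast
  rfl

omit hd in
/-- the determinant in terms of the embeddings -/
lemma dt_eq (v u : Qd t c) :
    Real.sqrt ((t : ℝ) ^ 2 - 4 * c) * (dt v u : ℝ) = s2 v * s1 u - s1 v * s2 u := by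
  unfold dt s1 s2
  push_cast
  ring

omit hd in
lemma s1_sub_s2 (z : Qd t c) : s1 z - s2 z = z.im * Real.sqrt ((t : ℝ) ^ 2 - 4 * c) := by
  unfold s1 s2
  ring

end

lemma s1_add_s2 (z : Qd t c) : s1 z + s2 z = 2 * z.re + t * z.im := by
  unfold s1 s2
  ring

/-! ### totally positive elements -/

lemma tp_add {z u : Qd t c} (hz : tp z) (hu : tp u) : tp (z + u) := by
  unfold tp at *
  rw [s1_add, s2_add]
  exact ⟨add_pos hz.1 hu.1, add_pos hz.2 hu.2⟩

lemma tp_mul (hd : 4 * c < t ^ 2) {z u : Qd t c} (hz : tp z) (hu : tp u) : tp (z * u) := by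
  unfold tp at *
  rw [s1_mul hd, s2_mul hd]
  exact ⟨mul_pos hz.1 hu.1, mul_pos hz.2 hu.2⟩

lemma tp_star {z : Qd t c} (hz : tp z) : tp (star z) := by
  unfold tp at *
  rw [s1_star, s2_star]
  exact ⟨hz.2, hz.1⟩

lemma tp_natCast {n : ℕ} (hn : 0 < n) : tp (n : Qd t c) := by
  unfold tp
  rw [s1_natCast, s2_natCast]
  have : (0 : ℝ) < n := by exact_mod_cast hn
  exact ⟨this, this⟩

lemma tp_one : tp (1 : Qd t c) := by
  have := tp_natCast (t := t) (c := c) one_pos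
  rwa [Nat.cast_one] at this

lemma tp_ne_zero {z : Qd t c} (hz : tp z) : z ≠ 0 := by
  rintro rfl
  have := hz.1
  rw [s1_zero] at this
  exact lt_irrefl _ this

lemma nm_tp (hd : 4 * c < t ^ 2) {z : Qd t c} (hz : tp z) : (nm z : ℝ) = s1 z * s2 z := by
  rw [← abs_s1_mul_s2 hd, abs_of_pos (mul_pos hz.1 hz.2)]

lemma nm_tp_int (hd : 4 * c < t ^ 2) {z : Qd t c} (hz : tp z) :
    (nm z : ℤ) = z.re ^ 2 + t * z.re * z.im + c * z.im ^ 2 := by
  have h := nm_tp hd hz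
  rw [s1_mul_s2 hd] at h
  exact_mod_cast h

lemma nm_pos (hd : 4 * c < t ^ 2) {z : Qd t c} (hz : tp z) : 0 < nm z := by
  have h := nm_tp hd hz
  have h1 : (0 : ℝ) < nm z := by rw [h]; exact mul_pos hz.1 hz.2
  exact_mod_cast h1

lemma nm_posR (hd : 4 * c < t ^ 2) {z : Qd t c} (hz : tp z) : (0 : ℝ) < nm z := by
  exact_mod_cast nm_pos hd hz

lemma one_le_nmR (hd : 4 * c < t ^ 2) {z : Qd t c} (hz : tp z) : (1 : ℝ) ≤ nm z := by
  exact_mod_cast nm_pos hd hz

/-- the norm vanishes only at `0` -/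
lemma nm_eq_zero (hns : ¬ IsSquare (t ^ 2 - 4 * c)) {z : Qd t c} : nm z = 0 ↔ z = 0 := by
  constructor
  · intro h
    unfold nm at h
    rw [Int.natAbs_eq_zero] at h
    have h1 : (2 * z.re + t * z.im) ^ 2 = (t ^ 2 - 4 * c) * z.im ^ 2 := by linear_combination 4 * h
    by_cases hi : z.im = 0
    · rw [hi] at h
      have : z.re ^ 2 = 0 := by linarith
      exact QuadraticAlgebra.ext (pow_eq_zero_iff two_ne_zero |>.1 this) hi
    · exfalso
      apply hns
      have h2 : z.im ^ 2 ∣ (2 * z.re + t * z.im) ^ 2 := ⟨t ^ 2 - 4 * c, by rw [h1]; ring⟩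
      rw [Int.pow_dvd_pow_iff two_ne_zero] at h2
      obtain ⟨k, hk⟩ := h2
      refine ⟨k, ?_⟩
      rw [hk] at h1
      have h3 : z.im ^ 2 * (k * k) = z.im ^ 2 * (t ^ 2 - 4 * c) := by linear_combination h1
      exact (mul_left_cancel₀ (pow_ne_zero 2 hi) h3).symm
  · rintro rfl; exact nm_zero

lemma star_mul_self_tp (hd : 4 * c < t ^ 2) {z : Qd t c} (hz : tp z) :
    star z * z = ((nm z : ℕ) : Qd t c) := by
  have h := nm_tp_int hd hz
  apply QuadraticAlgebra.ext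
  · rw [QuadraticAlgebra.re_natCast]
    rw [h]
    simp only [QuadraticAlgebra.re_mul, QuadraticAlgebra.re_star, QuadraticAlgebra.im_star]
    ring
  · rw [QuadraticAlgebra.im_natCast]
    simp only [QuadraticAlgebra.im_mul, QuadraticAlgebra.re_star, QuadraticAlgebra.im_star]
    ring

/-- cancellation -/
lemma mul_cancel (hns : ¬ IsSquare (t ^ 2 - 4 * c)) {a z w : Qd t c} (ha : a ≠ 0)
    (e : a * z = a * w) : z = w := by
  have h1 : a * (z - w) = 0 := by rw [mul_sub, e, sub_self]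
  have h2 := congrArg nm h1
  rw [nm_mul, nm_zero] at h2
  rcases mul_eq_zero.1 h2 with h3 | h3
  · exact absurd ((nm_eq_zero hns).1 h3) ha
  · rw [nm_eq_zero hns] at h3
    exact sub_eq_zero.1 h3

lemma mul_ne (hns : ¬ IsSquare (t ^ 2 - 4 * c)) {z u : Qd t c} (hz : z ≠ 0) (hu : u ≠ 0) :
    z * u ≠ 0 := by
  intro h
  have h2 := congrArg nm h
  rw [nm_mul, nm_zero, mul_eq_zero, nm_eq_zero hns, nm_eq_zero hns] at h2
  tauto

lemma ip_dt (v u : Qd t c) (hd : 4 * c < t ^ 2) (hv : tp v) (hu : tp u) :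
    (nm v : ℤ) * nm u = ip v u ^ 2 + t * ip v u * dt v u + c * dt v u ^ 2 := by
  rw [nm_tp_int hd hv, nm_tp_int hd hu]
  unfold ip dt
  ring

/-- the product of the norms of a pair of determinant `1` -/
lemma NN_eq (hd : 4 * c < t ^ 2) {e : Qd t c × Qd t c} (h1 : tp e.1) (h2 : tp e.2)
    (h : dt e.1 e.2 = 1) :
    (NN e : ℤ) = ip e.1 e.2 ^ 2 + t * ip e.1 e.2 + c := by
  unfold NN
  push_cast
  rw [ip_dt _ _ hd h1 h2, h]
  ring

lemma gl_mul (hns : ¬ IsSquare (t ^ 2 - 4 * c)) {z u : Qd t c} (hz : z ≠ 0) (hu : u ≠ 0) :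
    gl (z * u) = gl z * gl u := by
  unfold gl
  rw [nm_mul, lam_mul]
  · rwa [Ne, nm_eq_zero hns]
  · rwa [Ne, nm_eq_zero hns]

/-! ### the unit -/

namespace Un

variable (U : Un t c η)
include U

lemma s1_gt : (1 : ℝ) < s1 (η : Qd t c) := by
  have := U.big
  have := disc_pos U.disc
  linarith

omit U in
lemma nm_eta : nm (η : Qd t c) = 1 := by
  have h : nm (η : Qd t c) * nm ((η⁻¹ : (Qd t c)ˣ) : Qd t c) = 1 := by
    rw [← nm_mul, ← Units.val_mul, mul_inv_cancel, Units.val_one, nm_one]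
  exact Nat.eq_one_of_mul_eq_one_right h

lemma s1_mul_s2_eta : s1 (η : Qd t c) * s2 (η : Qd t c) = 1 := by
  rw [← nm_tp U.disc U.pos, nm_eta, Nat.cast_one]

lemma rg_pos : 0 < rg η := Real.log_pos U.s1_gt

lemma inv_eq : ((η⁻¹ : (Qd t c)ˣ) : Qd t c) = star (η : Qd t c) := by
  have h1 : star (η : Qd t c) * (η : Qd t c) = 1 := by
    rw [star_mul_self_tp U.disc U.pos, nm_eta, Nat.cast_one]
  have h2 : ((η⁻¹ : (Qd t c)ˣ) : Qd t c) * (η : Qd t c) = 1 := by
    rw [← Units.val_mul, inv_mul_cancel, Units.val_one]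
  calc ((η⁻¹ : (Qd t c)ˣ) : Qd t c) = (star (η : Qd t c) * (η : Qd t c)) *
        ((η⁻¹ : (Qd t c)ˣ) : Qd t c) := by rw [h1, one_mul]
    _ = star (η : Qd t c) * (((η⁻¹ : (Qd t c)ˣ) : Qd t c) * (η : Qd t c)) := by ring
    _ = star (η : Qd t c) := by rw [h2, mul_one]

lemma tp_inv : tp ((η⁻¹ : (Qd t c)ˣ) : Qd t c) := by
  rw [U.inv_eq]
  exact tp_star U.pos

lemma tp_zpow (j : ℤ) : tp ((η ^ j : (Qd t c)ˣ) : Qd t c) := by
  induction j with
  | zero => simpa using tp_one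
  | succ n ih =>
    rw [zpow_add_one, Units.val_mul]
    exact tp_mul U.disc ih U.pos
  | pred n ih =>
    rw [zpow_sub_one, Units.val_mul]
    exact tp_mul U.disc ih U.tp_inv

omit U in
lemma nm_zpow (j : ℤ) : nm ((η ^ j : (Qd t c)ˣ) : Qd t c) = 1 := by
  have h : nm ((η ^ j : (Qd t c)ˣ) : Qd t c) * nm ((η ^ (-j) : (Qd t c)ˣ) : Qd t c) = 1 := by
    rw [← nm_mul, ← Units.val_mul, ← zpow_add, add_neg_cancel, zpow_zero, Units.val_one, nm_one]
  exact Nat.eq_one_of_mul_eq_one_right h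

omit U in
lemma nm_zpow_mul (j : ℤ) (z : Qd t c) : nm (((η ^ j : (Qd t c)ˣ) : Qd t c) * z) = nm z := by
  rw [nm_mul, nm_zpow, one_mul]

lemma tp_zpow_mul (j : ℤ) {z : Qd t c} : tp (((η ^ j : (Qd t c)ˣ) : Qd t c) * z) ↔ tp z := by
  constructor
  · intro h
    have h1 := tp_mul U.disc (U.tp_zpow (-j)) h
    rwa [← mul_assoc, ← Units.val_mul, ← zpow_add, neg_add_cancel, zpow_zero, Units.val_one,
      one_mul] at h1
  · exact tp_mul U.disc (U.tp_zpow j)

end Un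

/-! ### angles -/

lemma ang_mul (hd : 4 * c < t ^ 2) {z u : Qd t c} (hz : tp z) (hu : tp u) :
    ang η (z * u) = ang η z + ang η u := by
  unfold ang
  rw [s1_mul hd, s2_mul hd, ← mul_add, ← Real.log_mul (div_pos hz.1 hz.2).ne'
    (div_pos hu.1 hu.2).ne']
  congr 2
  have := hz.2.ne'
  have := hu.2.ne'
  field_simp

lemma ang_natCast {n : ℕ} (hn : 0 < n) : ang η (n : Qd t c) = 0 := by
  unfold ang
  have h : (n : ℝ) ≠ 0 := by exact_mod_cast hn.ne'
  rw [s1_natCast, s2_natCast, div_self h, Real.log_one, mul_zero]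

lemma ang_one : ang η (1 : Qd t c) = 0 := by
  have := ang_natCast (η := η) one_pos
  rwa [Nat.cast_one] at this

lemma ang_star (z : Qd t c) : ang η (star z) = -ang η z := by
  unfold ang
  have h : s2 z / s1 z = (s1 z / s2 z)⁻¹ := (inv_div _ _).symm
  rw [s1_star, s2_star, h, Real.log_inv]
  ring

/-- the difference of angles -/
lemma ang_sub (hd : 4 * c < t ^ 2) {z u : Qd t c} (hz : tp z) (hu : tp u) :
    ang η z - ang η u = ang η (z * star u) := by
  rw [ang_mul hd hz (tp_star hu), ang_star]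
  ring

lemma Un.ang_eta (U : Un t c η) : ang η (η : Qd t c) = 2 * Real.pi := by
  unfold ang rg
  have h1 := U.s1_gt
  have h2 : s2 (η : Qd t c) = (s1 (η : Qd t c))⁻¹ :=
    eq_inv_of_mul_eq_one_right U.s1_mul_s2_eta
  have h3 : 0 < Real.log (s1 (η : Qd t c)) := Real.log_pos h1
  rw [h2, div_inv_eq_mul, Real.log_mul (by linarith) (by linarith)]
  field_simp
  ring

lemma Un.ang_inv (U : Un t c η) : ang η ((η⁻¹ : (Qd t c)ˣ) : Qd t c) = -(2 * Real.pi) := by
  rw [U.inv_eq, ang_star, U.ang_eta]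

lemma Un.ang_zpow (U : Un t c η) (j : ℤ) :
    ang η ((η ^ j : (Qd t c)ˣ) : Qd t c) = 2 * Real.pi * j := by
  induction j with
  | zero => simp [ang_one]
  | succ n ih =>
    rw [zpow_add_one, Units.val_mul, ang_mul U.disc (U.tp_zpow _) U.pos, ih, U.ang_eta]
    push_cast
    ring
  | pred n ih =>
    rw [zpow_sub_one, Units.val_mul, ang_mul U.disc (U.tp_zpow _) U.tp_inv, ih, U.ang_inv]
    push_cast
    ring

lemma Un.ang_zpow_mul (U : Un t c η) (j : ℤ) {z : Qd t c} (hz : tp z) :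
    ang η (((η ^ j : (Qd t c)ˣ) : Qd t c) * z) = ang η z + 2 * Real.pi * j := by
  rw [ang_mul U.disc (U.tp_zpow _) hz, U.ang_zpow]
  ring

lemma Un.ang_eta_mul (U : Un t c η) {z : Qd t c} (hz : tp z) :
    ang η ((η : Qd t c) * z) = ang η z + 2 * Real.pi := by
  rw [ang_mul U.disc U.pos hz, U.ang_eta]
  ring

/-- the embeddings in polar form: `s1 z = √N e^{θ}`, `θ = rg η ang z / (2π)` -/
lemma Un.s1_polar (U : Un t c η) {z : Qd t c} (hz : tp z) :
    s1 z = Real.sqrt (nm z) * Real.exp (rg η / (2 * Real.pi) * ang η z) ∧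
    s2 z = Real.sqrt (nm z) * Real.exp (-(rg η / (2 * Real.pi) * ang η z)) := by
  have hR := U.rg_pos
  have hpi := Real.pi_pos
  have h1 : rg η / (2 * Real.pi) * ang η z = Real.log (s1 z / s2 z) / 2 := by
    unfold ang
    field_simp
  have h2 : Real.exp (Real.log (s1 z / s2 z) / 2) = Real.sqrt (s1 z / s2 z) := by
    rw [Real.sqrt_eq_rpow, Real.rpow_def_of_pos (div_pos hz.1 hz.2)]
    congr 1
    ring
  rw [h1, Real.exp_neg, h2, nm_tp U.disc hz, ← Real.sqrt_inv,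
    ← Real.sqrt_mul (mul_pos hz.1 hz.2).le, ← Real.sqrt_mul (mul_pos hz.1 hz.2).le]
  have e1 : s1 z * s2 z * (s1 z / s2 z) = s1 z ^ 2 := by
    have := hz.2.ne'
    field_simp
  have e2 : s1 z * s2 z * (s1 z / s2 z)⁻¹ = s2 z ^ 2 := by
    have := hz.2.ne'
    have := hz.1.ne'
    field_simp
  rw [e1, e2, Real.sqrt_sq hz.1.le, Real.sqrt_sq hz.2.le]
  exact ⟨rfl, rfl⟩

/-- the determinant in terms of the angles -/
lemma Un.dt_sinh (U : Un t c η) {v u : Qd t c} (hv : tp v) (hu : tp u) :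
    Real.sqrt ((t : ℝ) ^ 2 - 4 * c) * (dt v u : ℝ) =
      2 * Real.sqrt (nm v * nm u) * Real.sinh (rg η / (2 * Real.pi) * (ang η u - ang η v)) := by
  obtain ⟨a1, a2⟩ := U.s1_polar hv
  obtain ⟨b1, b2⟩ := U.s1_polar hu
  rw [dt_eq, Real.sinh_eq, Real.sqrt_mul (Nat.cast_nonneg _)]
  have e1 : Real.exp (rg η / (2 * Real.pi) * (ang η u - ang η v)) =
      Real.exp (-(rg η / (2 * Real.pi) * ang η v)) * Real.exp (rg η / (2 * Real.pi) * ang η u) := by
    rw [← Real.exp_add]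
    congr 1
    ring
  have e2 : Real.exp (-(rg η / (2 * Real.pi) * (ang η u - ang η v))) =
      Real.exp (rg η / (2 * Real.pi) * ang η v) * Real.exp (-(rg η / (2 * Real.pi) * ang η u)) := by
    rw [← Real.exp_add]
    congr 1
    ring
  rw [e1, e2, a1, a2, b1, b2]
  ring

lemma Un.dt_pos_iff (U : Un t c η) {v u : Qd t c} (hv : tp v) (hu : tp u) :
    0 < dt v u ↔ ang η v < ang η u := by
  have h := U.dt_sinh hv hu
  have hs := sd_pos U.disc
  have hn : 0 < 2 * Real.sqrt ((nm v : ℝ) * nm u) := by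
    have := nm_posR U.disc hv
    have := nm_posR U.disc hu
    positivity
  have hR : 0 < rg η / (2 * Real.pi) := by
    have := U.rg_pos
    have := Real.pi_pos
    positivity
  constructor
  · intro h0
    have h1 : (0 : ℝ) < dt v u := by exact_mod_cast h0
    have h2 : 0 < Real.sinh (rg η / (2 * Real.pi) * (ang η u - ang η v)) := by
      by_contra h3
      push Not at h3
      have h4 : 0 < Real.sqrt ((t : ℝ) ^ 2 - 4 * c) * (dt v u : ℝ) := mul_pos hs h1
      rw [h] at h4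
      have := mul_nonpos_of_nonneg_of_nonpos hn.le h3
      linarith
    rw [Real.sinh_pos_iff] at h2
    have := (mul_pos_iff_of_pos_left hR).1 h2
    linarith
  · intro h0
    have h2 : 0 < Real.sinh (rg η / (2 * Real.pi) * (ang η u - ang η v)) := by
      rw [Real.sinh_pos_iff]
      exact mul_pos hR (by linarith)
    have h3 : 0 < Real.sqrt ((t : ℝ) ^ 2 - 4 * c) * (dt v u : ℝ) := by
      rw [h]
      exact mul_pos hn h2
    have h4 := (mul_pos_iff_of_pos_left hs).1 h3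
    exact_mod_cast h4

/-! ### characters -/

@[simp] lemma ps_zero (z : Qd t c) : ps η 0 z = 1 := by simp [ps]

lemma norm_ps (k : ℤ) (z : Qd t c) : ‖ps η k z‖ = 1 := by
  unfold ps
  exact Complex.norm_exp_ofReal_mul_I _

lemma ps_mul (hd : 4 * c < t ^ 2) (k : ℤ) {z u : Qd t c} (hz : tp z) (hu : tp u) :
    ps η k (z * u) = ps η k z * ps η k u := by
  unfold ps
  rw [ang_mul hd hz hu, ← Complex.exp_add]
  congr 1
  push_cast
  ring

lemma ps_add (k l : ℤ) (z : Qd t c) : ps η (k + l) z = ps η k z * ps η l z := by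
  unfold ps
  rw [← Complex.exp_add]
  congr 1
  push_cast
  ring

lemma ps_star (k : ℤ) (z : Qd t c) : ps η k (star z) = ps η (-k) z := by
  unfold ps
  rw [ang_star]
  congr 1
  push_cast
  ring

lemma conj_ps (k : ℤ) (z : Qd t c) : (starRingEnd ℂ) (ps η k z) = ps η (-k) z := by
  unfold ps
  rw [← Complex.exp_conj, map_mul, Complex.conj_I, Complex.conj_ofReal]
  congr 1
  push_cast
  ring

lemma ps_natCast {n : ℕ} (hn : 0 < n) (k : ℤ) : ps η k (n : Qd t c) = 1 := by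
  unfold ps
  rw [ang_natCast hn]
  simp

lemma ps_one (k : ℤ) : ps η k (1 : Qd t c) = 1 := by
  unfold ps
  rw [ang_one]
  simp

lemma Un.ps_zpow (U : Un t c η) (j k : ℤ) : ps η k ((η ^ j : (Qd t c)ˣ) : Qd t c) = 1 := by
  unfold ps
  rw [U.ang_zpow, Complex.exp_eq_one_iff]
  refine ⟨k * j, ?_⟩
  push_cast
  ring

lemma Un.ps_zpow_mul (U : Un t c η) (j k : ℤ) {z : Qd t c} (hz : tp z) :
    ps η k (((η ^ j : (Qd t c)ˣ) : Qd t c) * z) = ps η k z := by
  rw [ps_mul U.disc k (U.tp_zpow j) hz, U.ps_zpow, one_mul]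

lemma Un.ps_eta_mul (U : Un t c η) (k : ℤ) {z : Qd t c} (hz : tp z) :
    ps η k ((η : Qd t c) * z) = ps η k z := by
  have := U.ps_zpow_mul 1 k hz
  rwa [zpow_one] at this

lemma cos_ang_sub (k : ℤ) (z u : Qd t c) :
    Real.cos (k * (ang η z - ang η u)) = (ps η k z * (starRingEnd ℂ) (ps η k u)).re := by
  unfold ps
  rw [← Complex.exp_conj, ← Complex.exp_add, map_mul, Complex.conj_I, Complex.conj_ofReal]
  have : ((k * ang η z : ℝ) : ℂ) * Complex.I + ((k * ang η u : ℝ) : ℂ) * -Complex.I =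
      ((k * (ang η z - ang η u) : ℝ) : ℂ) * Complex.I := by
    push_cast
    ring
  rw [this, Complex.exp_ofReal_mul_I_re]

/-! ### units and primitivity, divisibility, lattices -/

lemma dvd_zpow_mul (j : ℤ) {w z : Qd t c} :
    w ∣ ((η ^ j : (Qd t c)ˣ) : Qd t c) * z ↔ w ∣ z := Units.dvd_mul_left

lemma prim_zpow_mul (j : ℤ) {z : Qd t c} :
    prim (((η ^ j : (Qd t c)ˣ) : Qd t c) * z) ↔ prim z := by
  rw [prim_iff, prim_iff]
  refine forall_congr' fun p => forall_congr' fun _ => not_congr ?_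
  exact dvd_zpow_mul j

lemma lat_zpow_mul {d : ℕ} {r : ℤ} (hr : (d : ℤ) ∣ r ^ 2 - t * r + c) (j : ℤ) {z : Qd t c} :
    lat d r (((η ^ j : (Qd t c)ˣ) : Qd t c) * z) ↔ lat d r z := by
  constructor
  · intro h
    have h1 := lat_mul_left hr (((η ^ (-j) : (Qd t c)ˣ) : Qd t c)) h
    have e : ((η ^ (-j) : (Qd t c)ˣ) : Qd t c) * (((η ^ j : (Qd t c)ˣ) : Qd t c) * z) = z := by
      rw [← mul_assoc, ← Units.val_mul, ← zpow_add, neg_add_cancel, zpow_zero, Units.val_one,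
        one_mul]
    have e' : ((η ^ j : (Qd t c)ˣ) : Qd t c) * z * ((η ^ (-j) : (Qd t c)ˣ) : Qd t c) = z := by
      rw [mul_comm, e]
    rwa [e'] at h1
  · intro h
    have h1 := lat_mul_left hr (((η ^ j : (Qd t c)ˣ) : Qd t c)) h
    first
      | exact h1
      | rwa [mul_comm] at h1

/-! ### the fundamental domain -/

/-- the exponent of the unit which brings `z` into the fundamental domain -/
noncomputable def ex (η : (Qd t c)ˣ) (z : Qd t c) : ℤ := -⌊ang η z / (2 * Real.pi)⌋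

/-- the representative in the fundamental domain -/
noncomputable def rep (η : (Qd t c)ˣ) (z : Qd t c) : Qd t c :=
  ((η ^ ex η z : (Qd t c)ˣ) : Qd t c) * z

namespace Un

variable (U : Un t c η)
include U

lemma rep_fd {z : Qd t c} (hz : tp z) : fd η (rep η z) := by
  unfold rep
  have h2 : 0 < 2 * Real.pi := by positivity
  refine ⟨(U.tp_zpow_mul _).2 hz, ?_, ?_⟩
  · rw [U.ang_zpow_mul _ hz]
    unfold ex
    have h1 := Int.floor_le (ang η z / (2 * Real.pi))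
    rw [le_div_iff₀ h2] at h1
    push_cast
    linarith
  · rw [U.ang_zpow_mul _ hz]
    unfold ex
    have h1 := Int.lt_floor_add_one (ang η z / (2 * Real.pi))
    rw [div_lt_iff₀ h2] at h1
    push_cast
    linarith

omit U in
lemma ex_fd {z : Qd t c} (hz : fd η z) : ex η z = 0 := by
  unfold ex
  have h2 : 0 < 2 * Real.pi := by positivity
  rw [neg_eq_zero, Int.floor_eq_zero_iff, Set.mem_Ico]
  exact ⟨div_nonneg hz.2.1 h2.le, (div_lt_one h2).2 hz.2.2⟩

lemma rep_eq_self {z : Qd t c} (hz : fd η z) : rep η z = z := by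
  unfold rep
  rw [ex_fd hz, zpow_zero, Units.val_one, one_mul]

lemma ex_zpow_mul (j : ℤ) {z : Qd t c} (hz : tp z) :
    ex η (((η ^ j : (Qd t c)ˣ) : Qd t c) * z) = ex η z - j := by
  unfold ex
  have h2 : 2 * Real.pi ≠ 0 := by positivity
  rw [U.ang_zpow_mul _ hz, add_div, mul_div_cancel_left₀ _ h2, Int.floor_add_intCast]
  ring

lemma rep_zpow_mul (j : ℤ) {z : Qd t c} (hz : tp z) :
    rep η (((η ^ j : (Qd t c)ˣ) : Qd t c) * z) = rep η z := by
  unfold rep
  rw [U.ex_zpow_mul j hz, ← mul_assoc, ← Units.val_mul, ← zpow_add, sub_add_cancel]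

/-- two elements of the fundamental domain which differ by a power of `η` are equal -/
lemma eq_of_zpow_mul {j : ℤ} {z w : Qd t c} (hz : fd η z) (hw : fd η w)
    (h : w = ((η ^ j : (Qd t c)ˣ) : Qd t c) * z) : w = z := by
  rw [← U.rep_eq_self hw, h, U.rep_zpow_mul j hz.1, U.rep_eq_self hz]

omit U in
lemma nm_rep (z : Qd t c) : nm (rep η z) = nm z := nm_zpow_mul _ _

omit U in
lemma gl_rep (z : Qd t c) : gl (rep η z) = gl z := by
  unfold gl
  rw [nm_rep]

lemma ps_rep (k : ℤ) {z : Qd t c} (hz : tp z) : ps η k (rep η z) = ps η k z :=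
  U.ps_zpow_mul _ k hz

omit U in
lemma bg_rep (Y : ℝ) (z : Qd t c) : bg Y (rep η z) = bg Y z := by
  unfold bg
  rw [nm_rep]

omit U in
lemma prim_rep {z : Qd t c} : prim (rep η z) ↔ prim z := prim_zpow_mul _

omit U in
lemma dvd_rep {w z : Qd t c} : w ∣ rep η z ↔ w ∣ z := dvd_zpow_mul _

omit U in
lemma lat_rep {d : ℕ} {r : ℤ} (hr : (d : ℤ) ∣ r ^ 2 - t * r + c) {z : Qd t c} :
    lat d r (rep η z) ↔ lat d r z := lat_zpow_mul hr _

omit U in
lemma tp_of_fd {z : Qd t c} (hz : fd η z) : tp z := hz.1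

/-- the fundamental domain in terms of the embeddings -/
lemma fd_iff {z : Qd t c} (hz : tp z) :
    fd η z ↔ s2 z ≤ s1 z ∧ s1 z < s1 (η : Qd t c) ^ 2 * s2 z := by
  have hR := U.rg_pos
  have hpi := Real.pi_pos
  have hpos : 0 < s1 z / s2 z := div_pos hz.1 hz.2
  have h1 := U.s1_gt
  have hc : 0 < Real.pi / rg η := div_pos hpi hR
  have e1 : 0 ≤ ang η z ↔ s2 z ≤ s1 z := by
    unfold ang
    rw [mul_nonneg_iff_of_pos_left hc, Real.log_nonneg_iff hpos, one_le_div hz.2]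
  have e2 : ang η z < 2 * Real.pi ↔ s1 z < s1 (η : Qd t c) ^ 2 * s2 z := by
    unfold ang
    have e3 : 2 * Real.pi = Real.pi / rg η * (2 * rg η) := by field_simp
    rw [e3, mul_lt_mul_iff_right₀ hc]
    have e4 : 2 * rg η = Real.log (s1 (η : Qd t c) ^ 2) := by
      rw [Real.log_pow]
      rfl
    rw [e4, Real.log_lt_log_iff hpos (by positivity), div_lt_iff₀ hz.2]
  unfold fd
  rw [e1, e2]
  exact ⟨fun h => h.2, fun h => ⟨hz, h⟩⟩

lemma five_le : (5 : ℝ) ≤ (t : ℝ) ^ 2 - 4 * c := by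
  have hd := U.disc
  have hns := U.nsq
  have h : 5 ≤ t ^ 2 - 4 * c := by
    by_contra h0
    push Not at h0
    rcases Int.even_or_odd t with ⟨s, hs⟩ | ⟨s, hs⟩
    · have h1 : t ^ 2 = 4 * s ^ 2 := by rw [hs]; ring
      have h2 : t ^ 2 - 4 * c = 4 := by omega
      exact hns ⟨2, by rw [h2]; norm_num⟩
    · have h1 : t ^ 2 = 4 * (s ^ 2 + s) + 1 := by rw [hs]; ring
      have h2 : t ^ 2 - 4 * c = 1 := by omega
      exact hns ⟨1, by rw [h2]; norm_num⟩
  exact_mod_cast h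

/-- bounds for the elements of the fundamental domain -/
lemma s_le {X : ℝ} {z : Qd t c} (hz : fd η z) (hX : (nm z : ℝ) ≤ X) :
    s2 z ≤ Real.sqrt X ∧ s1 z ≤ s1 (η : Qd t c) * Real.sqrt X := by
  obtain ⟨h1, h2⟩ := (U.fd_iff hz.1).1 hz
  have h3 := nm_tp U.disc hz.1
  have hp1 := hz.1.1
  have hp2 := hz.1.2
  have he := U.s1_gt
  constructor
  · apply Real.le_sqrt_of_sq_le
    nlinarith
  · have h4 : s1 z ^ 2 ≤ s1 (η : Qd t c) ^ 2 * X := by
      have : s1 z * s1 z ≤ s1 z * (s1 (η : Qd t c) ^ 2 * s2 z) :=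
        mul_le_mul_of_nonneg_left h2.le hp1.le
      have h5 : s1 (η : Qd t c) ^ 2 * (nm z : ℝ) ≤ s1 (η : Qd t c) ^ 2 * X :=
        mul_le_mul_of_nonneg_left hX (by positivity)
      rw [h3] at h5
      nlinarith
    have hX0 : 0 ≤ X := le_trans (Nat.cast_nonneg _) hX
    have h5 : s1 z ≤ Real.sqrt (s1 (η : Qd t c) ^ 2 * X) := Real.le_sqrt_of_sq_le h4
    rwa [Real.sqrt_mul (by positivity), Real.sqrt_sq (by linarith)] at h5

/-- bounds for the coordinates -/
lemma coord_le {X : ℝ} {z : Qd t c} (hz : fd η z) (hX : (nm z : ℝ) ≤ X) :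
    0 ≤ z.im ∧ (z.im : ℝ) ≤ s1 (η : Qd t c) * Real.sqrt X / 2 ∧
    |(z.re : ℝ)| ≤ (|(t : ℝ)| + 1) * s1 (η : Qd t c) * Real.sqrt X := by
  obtain ⟨h1, h2⟩ := (U.fd_iff hz.1).1 hz
  obtain ⟨h3, h4⟩ := U.s_le hz hX
  have he := U.s1_gt
  have hp1 := hz.1.1
  have hp2 := hz.1.2
  have h5 := s1_sub_s2 z
  have h6 := s1_add_s2 z
  have hq : 2 ≤ Real.sqrt ((t : ℝ) ^ 2 - 4 * c) := by
    apply Real.le_sqrt_of_sq_le
    have := U.five_le
    linarith
  have hs0 : 0 ≤ Real.sqrt X := Real.sqrt_nonneg _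
  have hy0 : (0 : ℝ) ≤ z.im := by
    by_contra h
    push Not at h
    have : (z.im : ℝ) * Real.sqrt ((t : ℝ) ^ 2 - 4 * c) < 0 := mul_neg_of_neg_of_pos h (by linarith)
    linarith
  have hy1 : (z.im : ℝ) ≤ s1 (η : Qd t c) * Real.sqrt X / 2 := by
    have : (z.im : ℝ) * 2 ≤ z.im * Real.sqrt ((t : ℝ) ^ 2 - 4 * c) :=
      mul_le_mul_of_nonneg_left hq hy0
    linarith
  refine ⟨by exact_mod_cast hy0, hy1, ?_⟩
  have h7 : (z.re : ℝ) = (s1 z + s2 z) / 2 - t * z.im / 2 := by linarith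
  rw [h7]
  have h8 : |(s1 z + s2 z) / 2 - t * z.im / 2| ≤ |(s1 z + s2 z) / 2| + |(t : ℝ) * z.im / 2| :=
    abs_sub _ _
  have h9 : |(s1 z + s2 z) / 2| ≤ s1 (η : Qd t c) * Real.sqrt X := by
    rw [abs_of_pos (by linarith)]
    linarith
  have h10 : |(t : ℝ) * z.im / 2| ≤ |(t : ℝ)| * (s1 (η : Qd t c) * Real.sqrt X) := by
    rw [abs_div, abs_mul, abs_of_nonneg hy0, abs_of_pos (by norm_num : (0 : ℝ) < 2)]
    have : |(t : ℝ)| * z.im ≤ |(t : ℝ)| * (s1 (η : Qd t c) * Real.sqrt X / 2) :=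
      mul_le_mul_of_nonneg_left hy1 (abs_nonneg _)
    have h11 : 0 ≤ |(t : ℝ)| * (s1 (η : Qd t c) * Real.sqrt X) := by positivity
    nlinarith
  calc |(s1 z + s2 z) / 2 - t * z.im / 2|
      ≤ s1 (η : Qd t c) * Real.sqrt X + |(t : ℝ)| * (s1 (η : Qd t c) * Real.sqrt X) := by linarith
    _ = (|(t : ℝ)| + 1) * s1 (η : Qd t c) * Real.sqrt X := by ring

lemma mem_ball {X : ℝ} {z : Qd t c} : z ∈ ball η X ↔ fd η z ∧ (nm z : ℝ) ≤ X := by
  classical
  unfold ball
  rw [mem_filter]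
  refine ⟨fun h => h.2, fun h => ⟨?_, h⟩⟩
  obtain ⟨h1, h2, h3⟩ := U.coord_le h.1 h.2
  have he := U.s1_gt
  have hX0 : 0 ≤ X := le_trans (Nat.cast_nonneg _) h.2
  have hsq : Real.sqrt X ≤ |X| + 1 := by
    rw [abs_of_nonneg hX0]
    rw [Real.sqrt_le_left (by linarith)]
    nlinarith
  have hB : (|(t : ℝ)| + 2) * s1 (η : Qd t c) * (|X| + 1) ≤ (bx η X : ℝ) := Nat.le_ceil _
  have ht := abs_nonneg (t : ℝ)
  have hsq0 := Real.sqrt_nonneg X
  have hm : (|(t : ℝ)| + 1) * s1 (η : Qd t c) * Real.sqrt X ≤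
      (|(t : ℝ)| + 2) * s1 (η : Qd t c) * (|X| + 1) := by
    gcongr <;> linarith
  have hm2 : s1 (η : Qd t c) * Real.sqrt X / 2 ≤
      (|(t : ℝ)| + 2) * s1 (η : Qd t c) * (|X| + 1) := by
    have h4 : s1 (η : Qd t c) * Real.sqrt X ≤ s1 (η : Qd t c) * (|X| + 1) := by gcongr
    have h5 : 0 ≤ s1 (η : Qd t c) * (|X| + 1) := by positivity
    nlinarith [mul_nonneg ht h5]
  rw [mem_image]
  refine ⟨(z.re, z.im), ?_, rfl⟩
  rw [mem_product, Finset.mem_Icc, Finset.mem_Icc]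
  have hre := abs_le.1 (h3.trans (hm.trans hB))
  have him : (z.im : ℝ) ≤ bx η X := h2.trans (hm2.trans hB)
  refine ⟨⟨?_, ?_⟩, ?_, ?_⟩
  · exact_mod_cast hre.1
  · exact_mod_cast hre.2
  · have : (0 : ℤ) ≤ bx η X := Int.natCast_nonneg _
    change -(bx η X : ℤ) ≤ z.im
    linarith
  · exact_mod_cast him

lemma mem_pball {X : ℝ} {z : Qd t c} : z ∈ pball η X ↔ fd η z ∧ prim z ∧ (nm z : ℝ) ≤ X := by
  unfold pball
  rw [mem_filter, U.mem_ball]
  tauto

lemma mem_ann {A B : ℝ} {z : Qd t c} :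
    z ∈ ann η A B ↔ fd η z ∧ A < (nm z : ℝ) ∧ (nm z : ℝ) ≤ B := by
  unfold ann
  rw [mem_filter, U.mem_ball]
  tauto

lemma mem_win {Y : ℝ} {z : Qd t c} :
    z ∈ win η Y ↔ fd η z ∧ Y / Real.exp 2 ≤ (nm z : ℝ) ∧ (nm z : ℝ) ≤ Real.exp 2 * Y := by
  unfold win
  rw [mem_filter, U.mem_ball]
  tauto

/-- sums over the multiples of `w` in a ball -/
lemma sum_dvd {M : Type*} [AddCommMonoid M] {w : Qd t c} (hw : tp w) (X : ℝ) (F : Qd t c → M) :
    (open scoped Classical in ∑ z ∈ (ball η X).filter (fun z => w ∣ z), F z) =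
      ∑ u ∈ ball η (X / nm w), F (rep η (w * u)) := by
  classical
  have hwn := nm_posR U.disc hw
  symm
  refine sum_bij (fun u _ => rep η (w * u)) ?_ ?_ ?_ ?_
  · intro u hu
    obtain ⟨h1, h2⟩ := U.mem_ball.1 hu
    rw [mem_filter, U.mem_ball, nm_rep, nm_mul, dvd_rep]
    refine ⟨⟨U.rep_fd (tp_mul U.disc hw h1.1), ?_⟩, dvd_mul_right _ _⟩
    push_cast
    rw [le_div_iff₀ hwn] at h2
    linarith
  · intro u hu u' hu' h
    obtain ⟨h1, -⟩ := U.mem_ball.1 hu
    obtain ⟨h1', -⟩ := U.mem_ball.1 hu'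
    -- both products differ by a power of `η`
    have e1 : rep η (w * u) = w * (((η ^ ex η (w * u) : (Qd t c)ˣ) : Qd t c) * u) := by
      unfold rep; ring
    have e2 : rep η (w * u') = w * (((η ^ ex η (w * u') : (Qd t c)ˣ) : Qd t c) * u') := by
      unfold rep; ring
    rw [e1, e2] at h
    have h3 := mul_cancel U.nsq (tp_ne_zero hw) h
    have h4 := congrArg (rep η) h3
    rwa [U.rep_zpow_mul _ h1.1, U.rep_zpow_mul _ h1'.1, U.rep_eq_self h1, U.rep_eq_self h1'] at h4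
  · intro z hz
    rw [mem_filter, U.mem_ball] at hz
    obtain ⟨⟨h1, h2⟩, u, rfl⟩ := hz
    have hu : tp u := by
      have h3 : tp (star w * (w * u)) := tp_mul U.disc (tp_star hw) h1.1
      rw [← mul_assoc, star_mul_self_tp U.disc hw] at h3
      obtain ⟨h4, h5⟩ := h3
      rw [s1_mul U.disc, s1_natCast] at h4
      rw [s2_mul U.disc, s2_natCast] at h5
      exact ⟨(mul_pos_iff_of_pos_left hwn).1 h4, (mul_pos_iff_of_pos_left hwn).1 h5⟩
    refine ⟨rep η u, ?_, ?_⟩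
    · rw [U.mem_ball, nm_rep]
      refine ⟨U.rep_fd hu, ?_⟩
      rw [le_div_iff₀ hwn]
      rw [nm_mul] at h2
      push_cast at h2
      linarith
    · have e1 : w * rep η u = ((η ^ ex η u : (Qd t c)ˣ) : Qd t c) * (w * u) := by
        unfold rep; ring
      rw [e1, U.rep_zpow_mul _ h1.1, U.rep_eq_self h1]
  · intro u _
    rfl

/-- sums over the fundamental domain may be replaced by sums over a shift of it: if `F` is
invariant under `η` and `S` is a finset of totally positive elements which contains, for every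
`z` in the fundamental domain with `P z`, exactly one `η^j z`, then the sums agree -/
lemma sum_shift {M : Type*} [AddCommMonoid M] (X : ℝ) (S : Finset (Qd t c)) (F : Qd t c → M)
    (hF : ∀ z : Qd t c, tp z → F (rep η z) = F z)
    (hS : ∀ z ∈ S, tp z ∧ (nm z : ℝ) ≤ X)
    (hinj : ∀ z ∈ S, ∀ z' ∈ S, rep η z = rep η z' → z = z')
    (hsurj : ∀ z ∈ ball η X, ∃ z' ∈ S, rep η z' = z) :
    ∑ z ∈ S, F z = ∑ z ∈ ball η X, F z := by
  classical
  refine sum_bij (fun z _ => rep η z) ?_ (fun z hz z' hz' h => hinj z hz z' hz' h) ?_ ?_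
  · intro z hz
    rw [U.mem_ball, nm_rep]
    exact ⟨U.rep_fd (hS z hz).1, (hS z hz).2⟩
  · intro z hz
    obtain ⟨z', h1, h2⟩ := hsurj z hz
    exact ⟨z', h1, h2⟩
  · intro z hz
    exact (hF z (hS z hz).1).symm

/-- the angles of a pair of determinant one -/
lemma ang_lt_of_dt {v u : Qd t c} (hv : tp v) (hu : tp u) (h : dt v u = 1) :
    ang η v < ang η u ∧ ang η u < ang η v + 2 * Real.pi := by
  refine ⟨(U.dt_pos_iff hv hu).1 (by omega), ?_⟩
  have h1 := U.dt_sinh hv hu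
  rw [h, Int.cast_one, mul_one] at h1
  have hR := U.rg_pos
  have hpi := Real.pi_pos
  by_contra h2
  push Not at h2
  have h3 : rg η ≤ rg η / (2 * Real.pi) * (ang η u - ang η v) := by
    rw [div_mul_eq_mul_div, le_div_iff₀ (by positivity)]
    apply mul_le_mul_of_nonneg_left _ hR.le
    linarith
  have h4 : Real.sinh (rg η) ≤ Real.sinh (rg η / (2 * Real.pi) * (ang η u - ang η v)) :=
    Real.sinh_le_sinh.2 h3
  have he := U.s1_gt
  have hb := U.big
  have h5 := U.five_le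
  have h6 : Real.sinh (rg η) = (s1 (η : Qd t c) - (s1 (η : Qd t c))⁻¹) / 2 := by
    rw [Real.sinh_eq]
    unfold rg
    rw [Real.exp_neg, Real.exp_log (by linarith)]
  have h7 : (s1 (η : Qd t c))⁻¹ ≤ 1 := inv_le_one_of_one_le₀ he.le
  have h8 : Real.sqrt ((t : ℝ) ^ 2 - 4 * c) ≤ (t : ℝ) ^ 2 - 4 * c := by
    rw [Real.sqrt_le_left (by linarith)]
    nlinarith
  have h9 : (1 : ℝ) ≤ Real.sqrt ((nm v : ℝ) * nm u) := by
    rw [Real.one_le_sqrt]
    have a1 := one_le_nmR U.disc hv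
    have a2 := one_le_nmR U.disc hu
    nlinarith
  have h10 : ((t : ℝ) ^ 2 - 4 * c) / 2 < Real.sinh (rg η) := by
    rw [h6]
    linarith
  have h11 : 2 * 1 * Real.sinh (rg η) ≤ 2 * Real.sqrt ((nm v : ℝ) * nm u) *
      Real.sinh (rg η / (2 * Real.pi) * (ang η u - ang η v)) := by
    have hs : 0 ≤ Real.sinh (rg η) := by
      rw [Real.sinh_nonneg_iff]; exact hR.le
    apply mul_le_mul _ h4 hs (by positivity)
    linarith
  linarith

/-- the angles of a pair of determinant one are close if the norms are large -/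
lemma sinh_of_dt {v u : Qd t c} (hv : tp v) (hu : tp u) (h : dt v u = 1) :
    Real.sinh (rg η / (2 * Real.pi) * (ang η u - ang η v)) =
      Real.sqrt ((t : ℝ) ^ 2 - 4 * c) / (2 * Real.sqrt (nm v * nm u)) := by
  have h1 := U.dt_sinh hv hu
  rw [h, Int.cast_one, mul_one] at h1
  have a1 := nm_posR U.disc hv
  have a2 := nm_posR U.disc hu
  rw [eq_div_iff (by positivity), h1]
  ring

lemma mem_dedge {X : ℝ} {e : Qd t c × Qd t c} :
    e ∈ dedge η X ↔ fd η e.1 ∧ (nm e.1 : ℝ) ≤ X ∧ tp e.2 ∧ (nm e.2 : ℝ) ≤ X ∧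
      dt e.1 e.2 = 1 := by
  classical
  unfold dedge
  rw [mem_filter, mem_product, mem_union, mem_image, U.mem_ball, U.mem_ball]
  constructor
  · rintro ⟨⟨⟨h1, h2⟩, h3⟩, h4⟩
    refine ⟨h1, h2, ?_⟩
    rcases h3 with h3 | ⟨z, hz, h3⟩
    · exact ⟨h3.1.1, h3.2, h4⟩
    · obtain ⟨h5, h6⟩ := U.mem_ball.1 hz
      rw [← h3] at h4 ⊢
      refine ⟨tp_mul U.disc U.pos h5.1, ?_, h4⟩
      rw [nm_mul, nm_eta, one_mul]
      exact h6
  · rintro ⟨h1, h2, h3, h4, h5⟩
    refine ⟨⟨⟨h1, h2⟩, ?_⟩, h5⟩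
    obtain ⟨h6, h7⟩ := U.ang_lt_of_dt h1.1 h3 h5
    by_cases h8 : ang η e.2 < 2 * Real.pi
    · left
      exact ⟨⟨h3, h1.2.1.trans h6.le, h8⟩, h4⟩
    · right
      have e1 : (η : Qd t c) * (((η ^ (-1 : ℤ) : (Qd t c)ˣ) : Qd t c) * e.2) = e.2 := by
        rw [← mul_assoc, ← Units.val_mul, ← zpow_one_add, add_neg_cancel, zpow_zero,
          Units.val_one, one_mul]
      refine ⟨((η ^ (-1 : ℤ) : (Qd t c)ˣ) : Qd t c) * e.2, ?_, e1⟩
      rw [U.mem_ball, nm_zpow_mul]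
      refine ⟨⟨(U.tp_zpow_mul _).2 h3, ?_, ?_⟩, h4⟩
      · rw [U.ang_zpow_mul _ h3]
        push_cast
        linarith
      · rw [U.ang_zpow_mul _ h3]
        push_cast
        have := h1.2.2
        linarith

lemma mem_sedge {X : ℝ} {e : Qd t c × Qd t c} :
    e ∈ sedge η X ↔ (fd η e.1 ∧ (nm e.1 : ℝ) ≤ X ∧ tp e.2 ∧ (nm e.2 : ℝ) ≤ X ∧
      dt e.1 e.2 = 1) ∧ lam (nm e.1) ≠ lam (nm e.2) := by
  classical
  unfold sedge
  rw [mem_filter, U.mem_dedge]

end Un

/-! ### pairs of determinant one -/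

lemma dt_add_right (v u : Qd t c) : dt v (v + u) = dt v u := by
  unfold dt
  simp only [QuadraticAlgebra.re_add, QuadraticAlgebra.im_add]
  ring

lemma dt_add_left (v u : Qd t c) : dt (v + u) u = dt v u := by
  unfold dt
  simp only [QuadraticAlgebra.re_add, QuadraticAlgebra.im_add]
  ring

lemma dt_sub_right (v u : Qd t c) : dt v (u - v) = dt v u := by
  unfold dt
  simp only [QuadraticAlgebra.re_sub, QuadraticAlgebra.im_sub]
  ring

lemma prim_of_dt {v u : Qd t c} (h : dt v u = 1) : prim v ∧ prim u := by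
  unfold prim dt at *
  constructor
  · rw [← Int.isCoprime_iff_gcd_eq_one]
    exact ⟨u.im, -u.re, by linarith⟩
  · rw [← Int.isCoprime_iff_gcd_eq_one]
    exact ⟨-v.im, v.re, by linarith⟩

/-- multiplication by a fixed element multiplies the determinant by its norm -/
lemma dt_mul (hd : 4 * c < t ^ 2) {w : Qd t c} (hw : tp w) (v u : Qd t c) :
    dt (w * v) (w * u) = nm w * dt v u := by
  rw [nm_tp_int hd hw]
  unfold dt
  simp only [QuadraticAlgebra.re_mul, QuadraticAlgebra.im_mul]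
  ring

lemma Un.dt_zpow_mul (U : Un t c η) (j : ℤ) (v u : Qd t c) :
    dt (((η ^ j : (Qd t c)ˣ) : Qd t c) * v) (((η ^ j : (Qd t c)ˣ) : Qd t c) * u) = dt v u := by
  rw [dt_mul U.disc (U.tp_zpow j), Un.nm_zpow, Nat.cast_one, one_mul]

lemma Un.ip_zpow_mul (U : Un t c η) (j : ℤ) (v u : Qd t c) :
    ip (((η ^ j : (Qd t c)ˣ) : Qd t c) * v) (((η ^ j : (Qd t c)ˣ) : Qd t c) * u) = ip v u := by
  have h := star_mul_eq (((η ^ j : (Qd t c)ˣ) : Qd t c) * v)
    (((η ^ j : (Qd t c)ˣ) : Qd t c) * u)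
  have e : star (((η ^ j : (Qd t c)ˣ) : Qd t c) * v) * (((η ^ j : (Qd t c)ˣ) : Qd t c) * u) =
      (star ((η ^ j : (Qd t c)ˣ) : Qd t c) * ((η ^ j : (Qd t c)ˣ) : Qd t c)) * (star v * u) := by
    rw [star_mul]
    ring
  rw [e, star_mul_self_tp U.disc (U.tp_zpow j), Un.nm_zpow, Nat.cast_one, one_mul,
    star_mul_eq] at h
  have := congrArg QuadraticAlgebra.re h
  exact this.symm

/-- the form: `nm (v + u) = nm v + nm u + Tr` -/
lemma nm_add_tp (hd : 4 * c < t ^ 2) {v u : Qd t c} (hv : tp v) (hu : tp u) :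
    (nm (v + u) : ℝ) = nm v + nm u + (s1 v * s2 u + s2 v * s1 u) := by
  rw [nm_tp hd (tp_add hv hu), nm_tp hd hv, nm_tp hd hu, s1_add, s2_add]
  ring

end Pool.Agent.W78.GR
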