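import Pool.Agent.W78.GA.Basic

/-!
Project GR (helper78): the Matomaki-Radziwill method for the (hyperbolic) angles of the totally
positive elements of a real quadratic order, and the parity of the number of prime factors of
`n^2 + t n + c`, `t^2 > 4 c`, `t^2 - 4 c` not a square. Definitions and statements.

The abstract machine and all objects which do not depend on the sign of the discriminant are those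
of project GA (`Pool.Agent.W78.GA`).
-/

set_option autoImplicit false

namespace Pool.Agent.W78.GR

export Pool.Agent.W78.GA (Qd nm prim bg gl dt ip lat NN Sm cellM mE MachB SmA SmjA S_MACH Sp gd
  S_SELB nm_eq_norm nm_zero nm_one nm_mul nm_pow nm_star nm_neg nm_natCast nm_intCast natCast_dvd
  prim_iff prim_of_dvd prim_neg prim_star nm_dvd lat_mul_eq lat_mul_left lat_mul_lat star_mul_eq
  lam_mul lam_prime lam_eq gl_eq gl_neg gl_star lam_sq_mul prim_ne_zero)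

open Finset Filter
open Pool.Agent.H376R2.MR

variable {t c : ℤ}

/-- first real embedding, `ω ↦ (t + √(t^2-4c))/2` -/
noncomputable def s1 (z : Qd t c) : ℝ := z.re + t * z.im / 2 + z.im * Real.sqrt (t ^ 2 - 4 * c) / 2

/-- second real embedding, `ω ↦ (t - √(t^2-4c))/2` -/
noncomputable def s2 (z : Qd t c) : ℝ := z.re + t * z.im / 2 - z.im * Real.sqrt (t ^ 2 - 4 * c) / 2

/-- totally positive -/
def tp (z : Qd t c) : Prop := 0 < s1 z ∧ 0 < s2 z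

/-- standing assumptions: the discriminant is positive and not a square, `η` is a totally positive
unit with large `s1 η` -/
structure Un (t c : ℤ) (η : (Qd t c)ˣ) : Prop where
  disc : 4 * c < t ^ 2
  nsq : ¬ IsSquare (t ^ 2 - 4 * c)
  pos : tp (η : Qd t c)
  big : (t : ℝ) ^ 2 - 4 * c + 1 < s1 (η : Qd t c)

/-- the logarithm of `s1 η` -/
noncomputable def rg (η : (Qd t c)ˣ) : ℝ := Real.log (s1 (η : Qd t c))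

/-- the (hyperbolic) angle, normalised such that multiplication by `η` adds `2π` -/
noncomputable def ang (η : (Qd t c)ˣ) (z : Qd t c) : ℝ :=
  Real.pi / rg η * Real.log (s1 z / s2 z)

/-- the angular characters -/
noncomputable def ps (η : (Qd t c)ˣ) (k : ℤ) (z : Qd t c) : ℂ :=
  Complex.exp (((k * ang η z : ℝ) : ℂ) * Complex.I)

/-- the fundamental domain -/
def fd (η : (Qd t c)ˣ) (z : Qd t c) : Prop := tp z ∧ 0 ≤ ang η z ∧ ang η z < 2 * Real.pi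

/-- bound for the coordinates of the elements of the fundamental domain of norm at most `X` -/
noncomputable def bx (η : (Qd t c)ˣ) (X : ℝ) : ℕ :=
  ⌈(|(t : ℝ)| + 2) * s1 (η : Qd t c) * (|X| + 1)⌉₊

open scoped Classical in
/-- the elements `z` of the fundamental domain with `nm z ≤ X` -/
noncomputable def ball (η : (Qd t c)ˣ) (X : ℝ) : Finset (Qd t c) :=
  (((Icc (-(bx η X : ℤ)) (bx η X)) ×ˢ (Icc (-(bx η X : ℤ)) (bx η X))).image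
    (fun p => (⟨p.1, p.2⟩ : Qd t c))).filter (fun z => fd η z ∧ (nm z : ℝ) ≤ X)

/-- primitive elements -/
noncomputable def pball (η : (Qd t c)ˣ) (X : ℝ) : Finset (Qd t c) := (ball η X).filter prim

/-- the annulus `A < nm z ≤ B` -/
noncomputable def ann (η : (Qd t c)ˣ) (A B : ℝ) : Finset (Qd t c) :=
  (ball η B).filter (fun z => A < (nm z : ℝ))

/-- the window `Y/e^2 ≤ nm z ≤ e^2 Y` -/
noncomputable def win (η : (Qd t c)ˣ) (Y : ℝ) : Finset (Qd t c) :=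
  (ball η (Real.exp 2 * Y)).filter (fun z => Y / Real.exp 2 ≤ (nm z : ℝ))

/-- the angular polynomial `∑_{z ∈ s} f_z ps k z` -/
noncomputable def DPG (η : (Qd t c)ˣ) (s : Finset (Qd t c)) (f : Qd t c → ℂ) (k : ℤ) : ℂ :=
  ∑ z ∈ s, f z * ps η k z

/-- `G_Y(k) = ∑_{z primitive} λ(N z) w(log(N z/Y))/N z ps k z`, `z` in the fundamental domain -/
noncomputable def GG (η : (Qd t c)ˣ) (Y : ℝ) (k : ℤ) : ℂ :=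
  DPG η (pball η (Real.exp 1 * Y)) (fun z => (gl z : ℂ) * (bg Y z : ℂ)) k

/-- area of the part `N z ≤ 1` of the fundamental domain -/
noncomputable def kap (η : (Qd t c)ˣ) : ℝ := rg η / Real.sqrt (t ^ 2 - 4 * c)

open scoped Classical in
/-- all pairs `(v, u)` of totally positive elements of norm at most `X` of determinant `1` with `v`
in the fundamental domain; `u` is in the union of the fundamental domain and its shift by `η` -/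
noncomputable def dedge (η : (Qd t c)ˣ) (X : ℝ) : Finset (Qd t c × Qd t c) :=
  (ball η X ×ˢ (ball η X ∪ (ball η X).image (fun z => (η : Qd t c) * z))).filter
    (fun e => dt e.1 e.2 = 1)

open scoped Classical in
/-- the pairs with a sign change of the Liouville function of the norm -/
noncomputable def sedge (η : (Qd t c)ˣ) (X : ℝ) : Finset (Qd t c × Qd t c) :=
  (dedge η X).filter (fun e => lam (nm e.1) ≠ lam (nm e.2))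

/-! ### The elements of norm `p q` used in place of prime elements -/

/-- `- ∑_{m ∈ cell} ps k (ϖ_m) / m` -/
noncomputable def PE (η : (Qd t c)ˣ) (M : ℕ → Prop) (ϖ : ℕ → Qd t c) (H v : ℕ) (k : ℤ) : ℂ :=
  -∑ m ∈ cellM M H v, ps η k (ϖ m) / (m : ℂ)

/-- A system of totally positive elements `ϖ m` of norm `m = p q`, `p` in `Ap`, `q` in `Bp`. For
every prime `p` of `Ap` or `Bp` one of the two prime ideals above `p` is chosen,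
`{z : p ∣ x + ρ(p) y}`, and `ϖ m` is in the chosen ideals only. -/
structure Ele (t c : ℤ) (Ap Bp M : ℕ → Prop) (E : ℕ) (ρ : ℕ → ℤ) (ϖ : ℕ → Qd t c) : Prop where
  pos : 1 ≤ E
  prA : ∀ p, Ap p → p.Prime ∧ 5 ≤ p ∧ ¬ (p : ℤ) ∣ t ^ 2 - 4 * c
  prB : ∀ p, Bp p → p.Prime ∧ 5 ≤ p ∧ ¬ (p : ℤ) ∣ t ^ 2 - 4 * c
  disj : ∀ p, Ap p → ¬ Bp p
  fac : ∀ m, M m → ∃ p q : ℕ, Ap p ∧ Bp q ∧ m = p * q ∧ p ≤ q ^ E ∧ q ≤ p ^ E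
  root : ∀ d, Sm Ap Bp d → (d : ℤ) ∣ ρ d ^ 2 - t * ρ d + c
  compat : ∀ d e, Sm Ap Bp e → d ∣ e → (d : ℤ) ∣ ρ e - ρ d
  elt : ∀ m, M m → nm (ϖ m) = m ∧ lat m (ρ m) (ϖ m) ∧ tp (ϖ m)
  rich : ∃ c₀ : ℝ, 0 < c₀ ∧ ∃ C : ℝ, ∀ H v₀ v₁ : ℕ, 1 ≤ H → H ≤ v₀ → v₀ ≤ v₁ →
    c₀ * Real.log ((v₁ : ℝ) / v₀) - C ≤ ∑ v ∈ Ico v₀ v₁, mE M H v

/-! ### Statements, part 2: the quadratic order -/

/-- existence of the unit -/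
def S_UNIT (t c : ℤ) : Prop := ∃ η : (Qd t c)ˣ, Un t c η

/-- LAT: lattice points -/
def S_LAT (t c : ℤ) (η : (Qd t c)ˣ) : Prop := ∃ C : ℝ, 0 < C ∧
  (∀ (X : ℝ) (d : ℕ) (r : ℤ), 1 ≤ X → 1 ≤ d →
    (open scoped Classical in
    |(((ball η X).filter (lat d r)).card : ℝ) - kap η * X / d| ≤ C * Real.sqrt X)) ∧
  (∀ (A B : ℝ) (d : ℕ) (r : ℤ), 1 ≤ A → A ≤ B → 1 ≤ d →
    (open scoped Classical in
    |∑ z ∈ (ann η A B).filter (lat d r), 1 / (nm z : ℝ) - kap η / d * Real.log (B / A)| ≤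
      C / Real.sqrt A))

/-- RED: reduction theory. The ideal `{z : d ∣ x + r y}` of norm `d` is `z₁ / A` times one of
finitely many ideals `{w : A ∣ x + s y}`, `z₁` totally positive. -/
def S_RED (t c : ℤ) : Prop := ∃ B : ℕ, ∀ (d : ℕ) (r : ℤ), 1 ≤ d → (d : ℤ) ∣ r ^ 2 - t * r + c →
  ∃ (A : ℕ) (s : ℤ) (z₁ : Qd t c), 1 ≤ A ∧ A ≤ B ∧ 0 ≤ s ∧ s < A ∧ (A : ℤ) ∣ s ^ 2 - t * s + c ∧
    tp z₁ ∧ nm z₁ = d * A ∧ lat d r z₁ ∧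
    (∀ w : Qd t c, lat A s w → ∃ z : Qd t c, lat d r z ∧ (A : Qd t c) * z = z₁ * w) ∧
    (∀ z : Qd t c, lat d r z → ∃ w : Qd t c, lat A s w ∧ (A : Qd t c) * z = z₁ * w)

/-- LATI: lattice points of ideals, uniformly -/
def S_LATI (t c : ℤ) (η : (Qd t c)ˣ) : Prop := ∃ C : ℝ, 0 < C ∧ ∀ (d : ℕ) (r : ℤ), 1 ≤ d →
  (d : ℤ) ∣ r ^ 2 - t * r + c →
  (∀ X : ℝ, (d : ℝ) ≤ X →
    |(((ball η X).filter (lat d r)).card : ℝ) - kap η * X / d| ≤ C * Real.sqrt (X / d)) ∧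
  (∀ X : ℝ, 1 ≤ X → (((ball η X).filter (lat d r)).card : ℝ) ≤ C * X / d) ∧
  (∀ A B : ℝ, 0 < A → A ≤ B →
    ∑ z ∈ (ann η A B).filter (lat d r), 1 / (nm z : ℝ) ≤ C / d * (1 + Real.log (B / A)))

/-- LS: large sieve for the angles of primitive elements -/
def S_LS (t c : ℤ) (η : (Qd t c)ˣ) : Prop := ∃ C : ℝ, 0 < C ∧ ∀ (X : ℝ) (K : ℕ)
  (s : Finset (Qd t c)) (f : Qd t c → ℂ), 1 ≤ X → 1 ≤ K → s ⊆ pball η X →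
  ∑ k ∈ FK K, ‖DPG η s f k‖ ^ 2 ≤ C * (K + X) * ∑ z ∈ s, ‖f z‖ ^ 2

/-- ANG1: angular sums over lattices, van der Corput part -/
def S_ANG1 (t c : ℤ) (η : (Qd t c)ˣ) : Prop := ∀ (d : ℕ) (r : ℤ) (M : ℕ), 1 ≤ d →
  ∃ δ : ℝ, 0 < δ ∧ ∃ C : ℝ, 0 < C ∧ ∀ (X : ℝ) (k : ℤ), 1 ≤ X → k ≠ 0 → |(k : ℝ)| ≤ X ^ M →
    ‖∑ z ∈ (ball η X).filter (lat d r), ps η k z‖ ≤ C * (X ^ (1 - δ) + X / |(k : ℝ)|)

/-- ANG2: angular sums over lattices, small frequencies -/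
def S_ANG2 (t c : ℤ) (η : (Qd t c)ˣ) : Prop := ∀ (d : ℕ) (r : ℤ), 1 ≤ d → ∃ C : ℝ, 0 < C ∧
  ∀ (X : ℝ) (k : ℤ), 1 ≤ X → k ≠ 0 →
    ‖∑ z ∈ (ball η X).filter (lat d r), ps η k z‖ ≤ C * |(k : ℝ)| * Real.sqrt X

/-- ANG: angular sums over lattices -/
def S_ANG (t c : ℤ) (η : (Qd t c)ˣ) : Prop := ∀ (d : ℕ) (r : ℤ) (M : ℕ), 1 ≤ d →
  ∃ δ : ℝ, 0 < δ ∧ ∃ C : ℝ, 0 < C ∧ ∀ (X : ℝ) (k : ℤ), 1 ≤ X → k ≠ 0 → |(k : ℝ)| ≤ X ^ M →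
    ‖∑ z ∈ (ball η X).filter (lat d r), ps η k z‖ ≤ C * X ^ (1 - δ)

/-- ANGI: angular sums over ideals, uniformly in the ideal -/
def S_ANGI (t c : ℤ) (η : (Qd t c)ˣ) : Prop := ∀ M : ℕ, ∃ δ : ℝ, 0 < δ ∧ δ ≤ 1 ∧ ∃ C : ℝ, 0 < C ∧
  ∀ (X : ℝ) (k : ℤ) (d : ℕ) (r : ℤ), 1 ≤ d → (d : ℤ) ∣ r ^ 2 - t * r + c → (d : ℝ) ≤ X → k ≠ 0 →
    |(k : ℝ)| ≤ (X / d) ^ M →
    ‖∑ z ∈ (ball η X).filter (lat d r), ps η k z‖ ≤ C * (X / d) ^ (1 - δ)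

/-- SPARSE: large sieve for sparse sets of frequencies -/
def S_SPARSE (t c : ℤ) (η : (Qd t c)ˣ) : Prop := ∃ α : ℝ, 0 < α ∧ ∃ C : ℝ, 0 < C ∧ ∃ Z₀ : ℝ,
  ∀ Z : ℝ, Z₀ ≤ Z → ∀ U : Finset ℤ, (∀ k ∈ U, |(k : ℝ)| ≤ Z ^ (4 / 3 : ℝ)) →
  (U.card : ℝ) ≤ Z ^ α → ∀ (s : Finset (Qd t c)) (f : Qd t c → ℂ), s ⊆ ball η (Real.exp 2 * Z) →
    ∑ k ∈ U, ‖DPG η s f k‖ ^ 2 ≤ C * Z * ∑ z ∈ s, ‖f z‖ ^ 2

/-- ELE: existence of a system of elements -/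
def S_ELE (t c : ℤ) : Prop := ∃ (Ap Bp M : ℕ → Prop) (E : ℕ) (ρ : ℕ → ℤ) (ϖ : ℕ → Qd t c),
  Ele t c Ap Bp M E ρ ϖ

/-- TK: Turan-Kubilius -/
def S_TK (t c : ℤ) (η : (Qd t c)ˣ) : Prop :=
  ∀ (Ap Bp M : ℕ → Prop) (E : ℕ) (ρ : ℕ → ℤ) (ϖ : ℕ → Qd t c),
  Ele t c Ap Bp M E ρ ϖ → ∃ C : ℝ, 0 < C ∧ ∀ (S : Finset ℕ) (R Y : ℝ),
    (∀ m ∈ S, M m ∧ (m : ℝ) ≤ R) → 1 ≤ ∑ m ∈ S, 1 / (m : ℝ) → R ^ 4 ≤ Y →
    (open scoped Classical in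
      ∑ z ∈ win η Y, (((S.filter (fun m => ϖ m ∣ z)).card : ℝ) - ∑ m ∈ S, 1 / (m : ℝ)) ^ 2 /
        (nm z : ℝ)) ≤ C * ∑ m ∈ S, 1 / (m : ℝ)

/-- DEC: the decomposition -/
def S_DEC (t c : ℤ) (η : (Qd t c)ˣ) : Prop :=
  ∀ (Ap Bp M : ℕ → Prop) (E : ℕ) (ρ : ℕ → ℤ) (ϖ : ℕ → Qd t c),
  Ele t c Ap Bp M E ρ ϖ → ∃ C : ℝ, 0 < C ∧ ∀ H v₀ v₁ : ℕ, 1 ≤ H → H ≤ v₀ →
    1 ≤ ∑ v ∈ Ico v₀ v₁, mE M H v → ∀ Y : ℝ, Real.exp (4 * (v₁ : ℝ) / H) ≤ Y →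
    ∃ (s : Finset (Qd t c)) (f : Qd t c → ℂ), s ⊆ pball η (Real.exp 2 * Y) ∧
      (∀ k : ℤ, GG η Y k = -(1 / ((∑ v ∈ Ico v₀ v₁, mE M H v : ℝ) : ℂ)) *
        ∑ v ∈ Ico v₀ v₁, PE η M ϖ H v k * GG η (Y * Real.exp (-((v : ℝ) / H))) k +
        DPG η s f k) ∧
      Y * ∑ z ∈ s, ‖f z‖ ^ 2 ≤ C * (1 / (∑ v ∈ Ico v₀ v₁, mE M H v) + 1 / (H : ℝ) ^ 2)

/-- MOM0: the mean values of `G` -/
def S_MOM0 (t c : ℤ) (η : (Qd t c)ˣ) : Prop := ∃ C : ℝ, 0 < C ∧ ∀ (K : ℕ) (Z : ℝ), 3 ≤ Z →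
    1 ≤ K → ∑ k ∈ FK K, ‖GG η Z k‖ ^ 2 ≤ C * (1 + (K : ℝ) / Z)

/-- MOMP: the moments of `P` -/
def S_MOMP (t c : ℤ) (η : (Qd t c)ˣ) : Prop :=
  ∀ (Ap Bp M : ℕ → Prop) (E : ℕ) (ρ : ℕ → ℤ) (ϖ : ℕ → Qd t c),
  Ele t c Ap Bp M E ρ ϖ → ∃ C : ℝ, 1 ≤ C ∧ ∀ H r ℓ K : ℕ, 1 ≤ H → 1 ≤ K →
    (K : ℝ) ≤ Real.exp ((r : ℝ) * ℓ / H) →
    ∑ k ∈ FK K, ‖PE η M ϖ H r k‖ ^ (2 * ℓ) ≤ C ^ (ℓ + 1) * (ℓ.factorial : ℝ) ^ 8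

/-- MOM: mixed moments -/
def S_MOM (t c : ℤ) (η : (Qd t c)ˣ) : Prop :=
  ∀ (Ap Bp M : ℕ → Prop) (E : ℕ) (ρ : ℕ → ℤ) (ϖ : ℕ → Qd t c),
  Ele t c Ap Bp M E ρ ϖ → ∃ C : ℝ, 1 ≤ C ∧ ∀ (H r ℓ K : ℕ) (Z : ℝ), 1 ≤ H → 3 ≤ Z → 1 ≤ K →
    (K : ℝ) ≤ Z * Real.exp ((r : ℝ) * ℓ / H) →
    ∑ k ∈ FK K, ‖PE η M ϖ H r k ^ ℓ * GG η Z k‖ ^ 2 ≤ C ^ (ℓ + 1) * (ℓ.factorial : ℝ) ^ 8

/-- SELE: the sieve bound for the elements `ϖ m` in a cell with the phases `e^{i r k θ}` -/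
def S_SELE (t c : ℤ) (η : (Qd t c)ˣ) : Prop :=
  ∀ (Ap Bp M : ℕ → Prop) (E : ℕ) (ρ : ℕ → ℤ) (ϖ : ℕ → Qd t c),
  Ele t c Ap Bp M E ρ ϖ → ∃ C : ℝ, 0 < C ∧ ∀ M' H R : ℕ, 1 ≤ H → 1 ≤ R → ∃ v₀ : ℕ, ∀ v : ℕ,
    v₀ ≤ v → ∀ k : ℤ, k ≠ 0 → |(k : ℝ)| ≤ Real.exp (M' * (v : ℝ) / H) →
    ∀ φ : ℝ, ∑ m ∈ cellM M H v, FR R (k * ang η (ϖ m) + φ) / (m : ℝ) ≤ C / v

/-- CELLE -/
def S_CELLE (t c : ℤ) (η : (Qd t c)ˣ) : Prop :=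
  ∀ (Ap Bp M : ℕ → Prop) (E : ℕ) (ρ : ℕ → ℤ) (ϖ : ℕ → Qd t c),
  Ele t c Ap Bp M E ρ ϖ → ∃ c' : ℝ, 0 < c' ∧ c' ≤ 1 ∧ ∃ Λ : ℕ, ∀ M' H : ℕ, 1 ≤ H →
    ∃ V₀ : ℕ, ∀ v₀ v₁ : ℕ, V₀ ≤ v₀ → Λ * v₀ ≤ v₁ → ∀ k : ℤ, k ≠ 0 →
    |(k : ℝ)| ≤ Real.exp (M' * (v₀ : ℝ) / H) →
    ∑ v ∈ Ico v₀ v₁, ‖PE η M ϖ H v k‖ ≤ (1 - c') * ∑ v ∈ Ico v₀ v₁, mE M H v

/-- MR: the Matomaki-Radziwill theorem for the angles in the order -/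
def S_MR (t c : ℤ) (η : (Qd t c)ˣ) : Prop := ∀ δ : ℝ, 0 < δ → ∃ h : ℝ, 1 ≤ h ∧ ∃ Y₀ : ℝ,
  ∀ Y : ℝ, Y₀ ≤ Y → ∑ k ∈ (FK ⌊Y / h⌋₊).erase 0, ‖GG η Y k‖ ^ 2 ≤ δ

/-! ### Statements, part 3: sign changes along pairs of determinant `1` -/

/-- A0: the main frequency of the constant function is not small -/
def S_A0 (t c : ℤ) (η : (Qd t c)ˣ) : Prop := ∃ c₀ : ℝ, 0 < c₀ ∧ ∃ Y₀ : ℝ, ∀ Y : ℝ, Y₀ ≤ Y →
  c₀ ≤ ∑ z ∈ pball η (Real.exp 1 * Y), bg Y z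

/-- SECT: few primitive vectors in a thin sector -/
def S_SECT (t c : ℤ) (η : (Qd t c)ˣ) : Prop := ∃ C : ℝ, 0 < C ∧ ∀ (X δ θ : ℝ), 1 ≤ X → 0 ≤ δ →
  δ ≤ Real.pi → (open scoped Classical in
    (((pball η X).filter (fun z => ∃ j : ℤ, |ang η z - θ + 2 * Real.pi * j| ≤ δ)).card : ℝ)) ≤
    C * (X * δ + 1)

/-- BETW: between two primitive vectors with different signs there is a sign change pair of
determinant `1` -/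
def S_BETW (t c : ℤ) (η : (Qd t c)ˣ) : Prop := ∃ C : ℝ, 1 ≤ C ∧ ∀ (X : ℝ) (z z' : Qd t c),
  tp z → tp z' → prim z → prim z' → (nm z : ℝ) ≤ X → (nm z' : ℝ) ≤ X → 0 < dt z z' →
  ang η z' - ang η z ≤ 2 * Real.pi → lam (nm z) ≠ lam (nm z') →
  ∃ v u : Qd t c, tp v ∧ tp u ∧ dt v u = 1 ∧ (nm v : ℝ) ≤ C * X ∧ (nm u : ℝ) ≤ C * X ∧
    lam (nm v) ≠ lam (nm u) ∧ ang η z ≤ ang η v ∧ ang η v < ang η u ∧ ang η u ≤ ang η z'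

/-- PAIR: pairs of close directions with different signs -/
def S_PAIR (t c : ℤ) (η : (Qd t c)ˣ) : Prop := ∀ u : Qd t c, tp u → ∃ C : ℝ, 0 < C ∧ ∃ U : ℝ,
  1 ≤ U ∧ ∀ (X T : ℝ) (K : ℕ), 1 ≤ X → 1 ≤ T → 1 ≤ K → 2 * T ≤ K →
  (open scoped Classical in
    ∑ z ∈ pball η X, ∑ z' ∈ pball η X,
      (if gl z ≠ gl (u * z') then Fj K (ang η z - ang η (u * z')) else 0)) ≤
    C * (K * (T * X / K + 1) ^ 2 * ((sedge η (U * X)).card : ℝ) + X ^ 2 / T + X * K / T ^ 2)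

/-- U0: the Liouville function is not constant on the norms of totally positive elements -/
def S_U0 (t c : ℤ) : Prop := ∃ u : Qd t c, tp u ∧ lam (nm u) = -1

/-- SC: a positive proportion of sign changes -/
def S_SC (t c : ℤ) (η : (Qd t c)ˣ) : Prop := ∃ ε : ℝ, 0 < ε ∧ ∃ X₀ : ℝ, ∀ X : ℝ, X₀ ≤ X →
  ε * X ≤ ((sedge η X).card : ℝ)

/-! ### Statements, part 4: from pairs to integers -/

/-- MULT: few pairs of determinant `1` with the same `ip` and the same first norm -/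
def S_MULT (t c : ℤ) (η : (Qd t c)ˣ) : Prop := ∃ W : ℕ, ∀ (n : ℤ) (d : ℕ)
  (S : Finset (Qd t c × Qd t c)),
  (∀ e ∈ S, fd η e.1 ∧ dt e.1 e.2 = 1 ∧ ip e.1 e.2 = n ∧ nm e.1 = d) → S.card ≤ W

/-- TYP: a typical norm has at most `(1+ε) log log X` prime factors -/
def S_TYP (t c : ℤ) (η : (Qd t c)ˣ) : Prop := ∀ ε δ : ℝ, 0 < ε → 0 < δ → ∃ X₀ : ℝ, ∀ X : ℝ,
  X₀ ≤ X → (((pball η X).filter (fun z =>
    (1 + ε) * Real.log (Real.log X) < (((nm z).primeFactors.card : ℕ) : ℝ))).card : ℝ) ≤ δ * X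

/-- VE: from vertices to pairs -/
def S_VE (t c : ℤ) (η : (Qd t c)ˣ) : Prop := ∃ C : ℝ, 0 < C ∧ ∀ (κ X : ℝ)
  (V : Finset (Qd t c)), 0 < κ → κ ≤ 1 → 1 ≤ X → (open scoped Classical in
    (((dedge η X).filter (fun e => e.1 ∈ V ∨ e.2 ∈ V)).card : ℝ)) ≤
    C * (κ * X + (V.card : ℝ) / κ)

/-- EQU: upper bound for the number of pairs of determinant `1` in a residue class -/
def S_EQU (t c : ℤ) (η : (Qd t c)ˣ) : Prop := ∃ C : ℝ, 0 < C ∧ ∀ A : ℕ, ∃ X₀ : ℝ, ∀ (X : ℝ)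
  (M : ℕ) (x₁ y₁ x₂ y₂ : ℤ), X₀ ≤ X → 1 ≤ M → (M : ℝ) ≤ Real.log X ^ A →
  (open scoped Classical in
    (((dedge η X).filter (fun e => (M : ℤ) ∣ e.1.re - x₁ ∧ (M : ℤ) ∣ e.1.im - y₁ ∧
      (M : ℤ) ∣ e.2.re - x₂ ∧ (M : ℤ) ∣ e.2.im - y₂)).card : ℝ)) ≤ C * X / (M : ℝ) ^ 3

/-- LARGE: few pairs for which `n^2+tn+c` is divisible by the square of a large prime -/
def S_LARGE (t c : ℤ) (η : (Qd t c)ˣ) : Prop := ∃ A : ℕ, ∀ δ : ℝ, 0 < δ → ∃ X₀ : ℝ, ∀ X : ℝ,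
  X₀ ≤ X → (open scoped Classical in
    (((dedge η X).filter (fun e => ∃ l : ℕ, l.Prime ∧ Real.log X ^ A < (l : ℝ) ∧
      l ^ 2 ∣ NN e)).card : ℝ)) ≤ δ * X

/-- SQB: few pairs for which `n^2+tn+c` is divisible by a large square -/
def S_SQB (t c : ℤ) (η : (Qd t c)ˣ) : Prop := ∀ δ : ℝ, 0 < δ → ∃ (S : ℕ) (X₀ : ℝ), ∀ X : ℝ,
  X₀ ≤ X → (open scoped Classical in
    (((dedge η X).filter (fun e => ∃ q : ℕ, S < q ∧ q ^ 2 ∣ NN e)).card : ℝ)) ≤ δ * X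

end Pool.Agent.W78.GR
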