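import Pool.Agent.W78.GR.SC
import Pool.Agent.W78.GA.T2

/-!
Project GR (helper78): from a positive proportion of sign changes to the values of the
Liouville function at `n^2+tn+c`, `t^2 > 4c`.
-/

set_option autoImplicit false

namespace Pool.Agent.W78.GR

open Finset Filter
open Pool.Agent.H376R2.MR
open Pool.Agent.W78.GA (SqM sq_part card_div_le four_Q)

variable {t c : ℤ} {η : (Qd t c)ˣ}

open scoped Classical in
/-- pairs of determinant one whose product of norms has no large square divisor, with sign `s` -/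
noncomputable def Bs (η : (Qd t c)ˣ) (S : ℕ) (s : ℤ) (X : ℝ) : Finset (Qd t c × Qd t c) :=
  (dedge η X).filter (fun e => (∀ q : ℕ, q ^ 2 ∣ NN e → q ≤ S) ∧ lam (NN e) = s)

lemma mem_Bs {S : ℕ} {s : ℤ} {X : ℝ} {e : Qd t c × Qd t c} :
    e ∈ Bs η S s X ↔ e ∈ dedge η X ∧ (∀ q : ℕ, q ^ 2 ∣ NN e → q ≤ S) ∧ lam (NN e) = s := by
  simp [Bs]

lemma Bs_mono {S S' : ℕ} (h : S ≤ S') (s : ℤ) (X : ℝ) : Bs η S s X ⊆ Bs η S' s X := by
  intro e he
  rw [mem_Bs] at he ⊢
  exact ⟨he.1, fun q hq => (he.2.1 q hq).trans h, he.2.2⟩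

lemma NN_ne (hd : 4 * c < t ^ 2) {e : Qd t c × Qd t c} (h1 : tp e.1) (h2 : tp e.2) :
    NN e ≠ 0 := by
  unfold NN
  exact mul_ne_zero (nm_pos hd h1).ne' (nm_pos hd h2).ne'

lemma sedge_sub (U : Un t c η) {X : ℝ} {e : Qd t c × Qd t c} (he : e ∈ sedge η X) :
    e ∈ dedge η X ∧ lam (NN e) = -1 := by
  rw [U.mem_sedge] at he
  obtain ⟨h0, h4⟩ := he
  refine ⟨U.mem_dedge.2 h0, ?_⟩
  unfold NN
  rw [lam_mul (nm_pos U.disc h0.1.1).ne' (nm_pos U.disc h0.2.2.1).ne']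
  rcases lam_eq (nm e.1) with h5 | h5 <;> rcases lam_eq (nm e.2) with h6 | h6
  · exact absurd (h5.trans h6.symm) h4
  · rw [h5, h6]; norm_num
  · rw [h5, h6]; norm_num
  · exact absurd (h5.trans h6.symm) h4

lemma neg_all (U : Un t c η) (hsc : S_SC t c η) : ∃ κ X₀ : ℝ, 0 < κ ∧ ∀ X : ℝ, X₀ ≤ X →
    (open scoped Classical in
      κ * X ≤ (((dedge η X).filter (fun e => lam (NN e) = -1)).card : ℝ)) := by
  classical
  obtain ⟨ε, hε, X₁, hsc⟩ := hsc
  refine ⟨ε, X₁, hε, fun X hX => (hsc X hX).trans ?_⟩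
  have : sedge η X ⊆ (dedge η X).filter (fun e => lam (NN e) = -1) := by
    intro e he
    exact mem_filter.2 (sedge_sub U he)
  exact_mod_cast card_le_card this

/-- the mixed term -/
lemma mix_eq (hd : 4 * c < t ^ 2) (v u : Qd t c) :
    s1 v * s2 u + s2 v * s1 u = 2 * (ip v u : ℝ) + t * dt v u := by
  have h := sq_sd hd
  unfold s1 s2 ip dt
  push_cast
  linear_combination (-(v.im : ℝ) * u.im / 2) * h

lemma mix_le (hd : 4 * c < t ^ 2) {v u : Qd t c} (hv : tp v) (hu : tp u) (h : dt v u = 1)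
    {X : ℝ} (h1 : (nm v : ℝ) ≤ X) (h2 : (nm u : ℝ) ≤ X) :
    0 < s1 v * s2 u + s2 v * s1 u ∧
      s1 v * s2 u + s2 v * s1 u ≤ (2 + ((t : ℝ) ^ 2 - 4 * c)) * X ∧
      s1 v * s2 u + s2 v * s1 u ≤ 2 * X + ((t : ℝ) ^ 2 - 4 * c) := by
  have hD := disc_pos hd
  have hX1 : 1 ≤ X := (one_le_nmR hd hv).trans h1
  have hpos : 0 < s1 v * s2 u + s2 v * s1 u :=
    add_pos (mul_pos hv.1 hu.2) (mul_pos hv.2 hu.1)
  have h3 : (s1 v * s2 u + s2 v * s1 u) ^ 2 = 4 * (nm v * nm u) + ((t : ℝ) ^ 2 - 4 * c) := by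
    have h4 := dt_eq (t := t) (c := c) v u
    rw [h, Int.cast_one, mul_one] at h4
    have h5 := sq_sd hd
    rw [nm_tp hd hv, nm_tp hd hu]
    have h6 : (s2 v * s1 u - s1 v * s2 u) * (s2 v * s1 u - s1 v * s2 u) = (t : ℝ) ^ 2 - 4 * c := by
      rw [← h4, h5]
    linear_combination h6
  have h4 : (nm v : ℝ) * nm u ≤ X * X :=
    mul_le_mul h1 h2 (Nat.cast_nonneg _) (by linarith)
  have hDi : (1 : ℝ) ≤ (t : ℝ) ^ 2 - 4 * c := by
    have : (1 : ℤ) ≤ t ^ 2 - 4 * c := by omega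
    exact_mod_cast this
  have hXX : 1 ≤ X * X := by nlinarith
  set D := (t : ℝ) ^ 2 - 4 * c with hDdef
  have hDX : D ≤ D * (X * X) := by nlinarith
  have hDD : D ≤ D * X := by nlinarith
  refine ⟨hpos, ?_, ?_⟩
  · apply le_of_sq_le_sq _ (by positivity)
    rw [h3]
    have e1 : ((2 + D) * X) ^ 2 = 4 * (X * X) + 4 * (D * (X * X)) + D ^ 2 * (X * X) := by ring
    have e2 : 0 ≤ D ^ 2 * (X * X) := by positivity
    rw [e1]
    linarith
  · apply le_of_sq_le_sq _ (by positivity)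
    rw [h3]
    have e1 : (2 * X + D) ^ 2 = 4 * (X * X) + 4 * (D * X) + D ^ 2 := by ring
    have e2 : 0 ≤ D ^ 2 := by positivity
    rw [e1]
    linarith

/-- normalisation of a pair: the first component is moved to the fundamental domain -/
noncomputable def nrm (η : (Qd t c)ˣ) (e : Qd t c × Qd t c) : Qd t c × Qd t c :=
  (rep η e.1, ((η ^ ex η e.1 : (Qd t c)ˣ) : Qd t c) * e.2)

lemma NN_nrm (e : Qd t c × Qd t c) : NN (nrm η e) = NN e := by
  unfold NN nrm
  rw [Un.nm_rep, Un.nm_zpow_mul]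

lemma ex_of_lt (U : Un t c η) {z : Qd t c} (h1 : 0 ≤ ang η z) (h2 : ang η z < 4 * Real.pi) :
    ex η z = 0 ∨ ex η z = -1 := by
  unfold ex
  have hpi := Real.pi_pos
  have h3 : 0 ≤ ⌊ang η z / (2 * Real.pi)⌋ := by
    apply Int.floor_nonneg.2
    positivity
  have h4 : ⌊ang η z / (2 * Real.pi)⌋ < 2 := by
    rw [Int.floor_lt, div_lt_iff₀ (by positivity)]
    push_cast
    linarith
  omega

lemma pos_all (U : Un t c η) (hsc : S_SC t c η) : ∃ κ X₀ : ℝ, 0 < κ ∧ ∀ X : ℝ, X₀ ≤ X →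
    (open scoped Classical in
      κ * X ≤ (((dedge η X).filter (fun e => lam (NN e) = 1)).card : ℝ)) := by
  classical
  obtain ⟨ε, hε, X₁, hsc⟩ := hsc
  have hD := disc_pos U.disc
  set Q : ℝ := 4 + ((t : ℝ) ^ 2 - 4 * c) with hQ
  have hQ1 : 1 ≤ Q := by rw [hQ]; linarith
  refine ⟨ε / (3 * Q), Q * X₁, by positivity, fun X' hX' => ?_⟩
  obtain ⟨X, rfl⟩ : ∃ X : ℝ, X' = Q * X := ⟨X' / Q, by field_simp⟩
  have hX : X₁ ≤ X := le_of_mul_le_mul_left hX' (by linarith)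
  set T := (dedge η (Q * X)).filter (fun e => lam (NN e) = 1) with hT
  -- the map
  set F : Qd t c × Qd t c → Qd t c × Qd t c := fun e =>
    if lam (nm e.1) = lam (nm (e.1 + e.2)) then (e.1, e.1 + e.2)
      else nrm η (e.1 + e.2, e.2) with hF
  have hmaps : ∀ e ∈ sedge η X, F e ∈ T := by
    intro e he
    rw [U.mem_sedge] at he
    obtain ⟨⟨f1, n1, p2, n2, h3⟩, h4⟩ := he
    have p1 := f1.1
    have hXp : 1 ≤ X := (one_le_nmR U.disc p1).trans n1
    have n3 : (nm (e.1 + e.2) : ℝ) ≤ Q * X := by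
      rw [nm_add_tp U.disc p1 p2]
      have := (mix_le U.disc p1 p2 h3 n1 n2).2.1
      rw [hQ]
      nlinarith
    have hXQ : X ≤ Q * X := by nlinarith
    have d1 : dt e.1 (e.1 + e.2) = 1 := by rw [dt_add_right, h3]
    have d2 : dt (e.1 + e.2) e.2 = 1 := by rw [dt_add_left, h3]
    have p3 : tp (e.1 + e.2) := tp_add p1 p2
    have q1 : nm e.1 ≠ 0 := (nm_pos U.disc p1).ne'
    have q2 : nm e.2 ≠ 0 := (nm_pos U.disc p2).ne'
    have q3 : nm (e.1 + e.2) ≠ 0 := (nm_pos U.disc p3).ne'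
    by_cases h : lam (nm e.1) = lam (nm (e.1 + e.2))
    · have : F e = (e.1, e.1 + e.2) := by rw [hF]; simp only [if_pos h]
      rw [this, hT, mem_filter, U.mem_dedge]
      refine ⟨⟨f1, by linarith, p3, n3, d1⟩, ?_⟩
      unfold NN
      rw [lam_mul q1 q3, ← h]
      rcases lam_eq (nm e.1) with h5 | h5 <;> rw [h5] <;> norm_num
    · have : F e = nrm η (e.1 + e.2, e.2) := by rw [hF]; simp only [if_neg h]
      rw [this, hT, mem_filter, U.mem_dedge, NN_nrm]
      refine ⟨⟨U.rep_fd p3, ?_, ?_, ?_, ?_⟩, ?_⟩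
      · change (nm (rep η (e.1 + e.2)) : ℝ) ≤ _
        rw [Un.nm_rep]
        exact n3
      · exact (U.tp_zpow_mul _).2 p2
      · change (nm (((η ^ ex η (e.1 + e.2) : (Qd t c)ˣ) : Qd t c) * e.2) : ℝ) ≤ _
        rw [Un.nm_zpow_mul]
        linarith
      · change dt (((η ^ ex η (e.1 + e.2) : (Qd t c)ˣ) : Qd t c) * (e.1 + e.2))
          (((η ^ ex η (e.1 + e.2) : (Qd t c)ˣ) : Qd t c) * e.2) = 1
        rw [U.dt_zpow_mul, d2]
      · unfold NN
        rw [lam_mul q3 q2]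
        rcases lam_eq (nm e.1) with h5 | h5 <;> rcases lam_eq (nm e.2) with h6 | h6 <;>
          rcases lam_eq (nm (e.1 + e.2)) with h7 | h7 <;> simp_all
  have hfib : ∀ f ∈ T, ((sedge η X).filter (fun e => F e = f)).card ≤ 3 := by
    intro f _
    have hsub : (sedge η X).filter (fun e => F e = f) ⊆
        {(f.1, f.2 - f.1), (f.1 - f.2, f.2),
          (((η ^ (1 : ℤ) : (Qd t c)ˣ) : Qd t c) * (f.1 - f.2),
            ((η ^ (1 : ℤ) : (Qd t c)ˣ) : Qd t c) * f.2)} := by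
      intro e he
      obtain ⟨he1, he2⟩ := mem_filter.1 he
      rw [U.mem_sedge] at he1
      obtain ⟨⟨f1, n1, p2, n2, h3⟩, h4⟩ := he1
      rw [mem_insert, mem_insert, mem_singleton]
      by_cases h : lam (nm e.1) = lam (nm (e.1 + e.2))
      · have : F e = (e.1, e.1 + e.2) := by rw [hF]; simp only [if_pos h]
        rw [this] at he2
        left
        rw [← he2]
        ext <;> simp
      · have : F e = nrm η (e.1 + e.2, e.2) := by rw [hF]; simp only [if_neg h]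
        rw [this] at he2
        have p3 : tp (e.1 + e.2) := tp_add f1.1 p2
        obtain ⟨a1, a2⟩ := U.ang_lt_of_dt f1.1 p3 (by rw [dt_add_right, h3])
        have a3 := f1.2.1
        have a4 := f1.2.2
        rcases ex_of_lt U (z := e.1 + e.2) (by linarith) (by linarith) with hx | hx
        · right; left
          rw [← he2]
          unfold nrm rep
          simp only [hx, zpow_zero, Units.val_one, one_mul]
          ext <;> simp
        · right; right
          rw [← he2]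
          unfold nrm rep
          simp only [hx]
          have e1 : ((η ^ (1 : ℤ) : (Qd t c)ˣ) : Qd t c) * ((η ^ (-1 : ℤ) : (Qd t c)ˣ) : Qd t c) =
              1 := by
            rw [← Units.val_mul, ← zpow_add]
            simp
          have e2 : ∀ x : Qd t c, ((η ^ (1 : ℤ) : (Qd t c)ˣ) : Qd t c) *
              (((η ^ (-1 : ℤ) : (Qd t c)ˣ) : Qd t c) * x) = x := by
            intro x
            rw [← mul_assoc, e1, one_mul]
          rw [← mul_sub, e2, e2]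
          ext <;> simp
    exact (card_le_card hsub).trans card_le_three
  have hcard : (sedge η X).card ≤ 3 * T.card :=
    card_le_mul_card_image_of_maps_to hmaps 3 hfib
  have hcard' : ((sedge η X).card : ℝ) ≤ 3 * (T.card : ℝ) := by exact_mod_cast hcard
  have h1 := hsc X hX
  have h2 : ε / (3 * Q) * (Q * X) = ε * X / 3 := by field_simp
  rw [h2]
  linarith

/-- a positive proportion of pairs with sign `e` and without large square divisors -/
theorem bs_all (U : Un t c η) (hsc : S_SC t c η) (hsqb : S_SQB t c η) : ∃ S : ℕ,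
    ∀ e : ℤ, e = 1 ∨ e = -1 → ∃ κ X₀ : ℝ, 0 < κ ∧ ∀ X : ℝ, X₀ ≤ X →
      κ * X ≤ ((Bs η S e X).card : ℝ) := by
  classical
  have key : ∀ e : ℤ, (∃ κ X₀ : ℝ, 0 < κ ∧ ∀ X : ℝ, X₀ ≤ X →
      κ * X ≤ (((dedge η X).filter (fun x => lam (NN x) = e)).card : ℝ)) →
      ∃ S : ℕ, ∃ κ X₀ : ℝ, 0 < κ ∧ ∀ X : ℝ, X₀ ≤ X → κ * X ≤ ((Bs η S e X).card : ℝ) := by
    rintro e ⟨κ, X₁, hκ, h⟩
    obtain ⟨S, X₂, hS⟩ := hsqb (κ / 2) (by linarith)
    refine ⟨S, κ / 2, max X₁ X₂, by linarith, fun X hX => ?_⟩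
    have h1 := h X ((le_max_left _ _).trans hX)
    have h2 := hS X ((le_max_right _ _).trans hX)
    have h3 : (dedge η X).filter (fun x => lam (NN x) = e) ⊆
        (dedge η X).filter (fun e => ∃ q : ℕ, S < q ∧ q ^ 2 ∣ NN e) ∪ Bs η S e X := by
      intro x hx
      obtain ⟨hx1, hx2⟩ := mem_filter.1 hx
      by_cases h4 : ∃ q : ℕ, S < q ∧ q ^ 2 ∣ NN x
      · exact mem_union_left _ (mem_filter.2 ⟨hx1, h4⟩)
      · push Not at h4
        refine mem_union_right _ (mem_Bs.2 ⟨hx1, fun q hq => ?_, hx2⟩)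
        by_contra h5
        exact h4 q (not_le.1 h5) hq
    have h4 : (((dedge η X).filter (fun x => lam (NN x) = e)).card : ℝ) ≤
        (((dedge η X).filter (fun e => ∃ q : ℕ, S < q ∧ q ^ 2 ∣ NN e)).card : ℝ) +
        ((Bs η S e X).card : ℝ) := by
      exact_mod_cast (card_le_card h3).trans (card_union_le _ _)
    linarith
  obtain ⟨S₁, h1⟩ := key 1 (pos_all U hsc)
  obtain ⟨S₂, h2⟩ := key (-1) (neg_all U hsc)
  refine ⟨max S₁ S₂, fun e he => ?_⟩
  rcases he with rfl | rfl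
  · obtain ⟨κ, X₀, hκ, h⟩ := h1
    refine ⟨κ, X₀, hκ, fun X hX => (h X hX).trans ?_⟩
    exact_mod_cast card_le_card (Bs_mono (le_max_left _ _) _ _)
  · obtain ⟨κ, X₀, hκ, h⟩ := h2
    refine ⟨κ, X₀, hκ, fun X hX => (h X hX).trans ?_⟩
    exact_mod_cast card_le_card (Bs_mono (le_max_right _ _) _ _)

/-- the number of pairs with given `ip` -/
lemma fib_le (U : Un t c η) {W : ℕ} (hmult : ∀ (n : ℤ) (d : ℕ)
    (S : Finset (Qd t c × Qd t c)), (∀ e ∈ S, fd η e.1 ∧ dt e.1 e.2 = 1 ∧ ip e.1 e.2 = n ∧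
      nm e.1 = d) → S.card ≤ W) (n : ℤ) (S : Finset (Qd t c × Qd t c))
    (h : ∀ e ∈ S, fd η e.1 ∧ tp e.2 ∧ dt e.1 e.2 = 1 ∧ ip e.1 e.2 = n) :
    S.card ≤ W * ((n ^ 2 + t * n + c).natAbs).divisors.card := by
  classical
  refine card_le_mul_card_image_of_maps_to (f := fun e => nm e.1)
    (t := ((n ^ 2 + t * n + c).natAbs).divisors) ?_ W ?_
  · intro e he
    obtain ⟨f1, t2, h1, h2⟩ := h e he
    have h3 := NN_eq U.disc f1.1 t2 h1
    rw [h2] at h3
    rw [← h3, Int.natAbs_natCast]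
    rw [Nat.mem_divisors]
    exact ⟨Dvd.intro _ rfl, NN_ne U.disc f1.1 t2⟩
  · intro d _
    refine hmult n d _ fun e he => ?_
    obtain ⟨h1, h2⟩ := mem_filter.1 he
    exact ⟨(h e h1).1, (h e h1).2.2.1, (h e h1).2.2.2, h2⟩

end Pool.Agent.W78.GR
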