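import Pool.Agent.W78.GR.T2
import Pool.Agent.W78.GA.All
import Pool.Agent.W327.GA.Ang1
import Pool.Agent.W376.GR.Unit
import Pool.Agent.W398.GR.Lat
import Pool.Agent.W880.GR.Red
import Pool.Agent.W880.GR.LatI
import Pool.Agent.W586.GR.LS
import Pool.Agent.W398.GR.Ang2
import Pool.Agent.W402.GR.Sparse
import Pool.Agent.W352.GR.Ele
import Pool.Agent.W248.GR.TK
import Pool.Agent.W638.GR.Dec6
import Pool.Agent.W571.GR.Momp
import Pool.Agent.W571.GR.MomF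
import Pool.Agent.W586.GR.Selb
import Pool.Agent.W402.GR.Sele
import Pool.Agent.W586.GR.Celle
import Pool.Agent.W412.GR.A0
import Pool.Agent.W54.GR.Pair
import Pool.Agent.W29.GR.Mult
import Pool.Agent.W29.GR.Ve
import Pool.Agent.W29.GR.Typ
import Pool.Agent.W500.GR.Equ
import Pool.Agent.W500.GR.Sqb
import Pool.Agent.W340.GR.Large
import Pool.Agent.W134.GR.Ang1

/-!
Project GR (helper78): all parts together, for every nonsquare discriminant.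
-/

set_option autoImplicit false

namespace Pool.Agent.W78.GR

open Finset Filter
open Pool.Agent.H376R2.MR
open Pool.Agent.W78.GA (SqM)

variable {t c : ℤ} {η : (Qd t c)ˣ}

/-- the Matomaki-Radziwill theorem for the angles of the elements of a real quadratic order -/
theorem mr (U : Un t c η) : S_MR t c η := by
  have hlat : S_LAT t c η := Pool.Agent.W398.GR.lat U
  have hred : S_RED t c := Pool.Agent.W880.GR.red U.disc U.nsq
  have hlati : S_LATI t c η := Pool.Agent.W880.GR.lati_of U hlat hred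
  have hls : S_LS t c η := Pool.Agent.W586.GR.ls U
  have hang1 : S_ANG1 t c η := Pool.Agent.W134.GR.ang1 U
  have hang : S_ANG t c η := Pool.Agent.W398.GR.ang_of hang1 (Pool.Agent.W398.GR.ang2 U)
  have hangi : S_ANGI t c η := Pool.Agent.W880.GR.angi_of U hang hred
  have hmach : S_MACH := Pool.Agent.W586.GA.mach_of Pool.Agent.W240.GA.leva
    Pool.Agent.W240.GA.levb Pool.Agent.W397.GA.s_cnt Pool.Agent.W586.GA.upart
  have hdec : S_DEC t c η := Pool.Agent.W638.GR.dec_of U hlat hlati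
    (Pool.Agent.W248.GR.tk_of U hlat hlati)
  exact mr_of U hmach (Pool.Agent.W352.GR.ele U.disc U.nsq) hdec
    (Pool.Agent.W571.GR.mom0_of U hls hlat) (Pool.Agent.W571.GR.momp_of U hls)
    (Pool.Agent.W571.GR.mom_of U hls hlat hlati)
    (Pool.Agent.W402.GR.sparse_of U hang hlat) hls
    (Pool.Agent.W586.GR.celle_of U
      (Pool.Agent.W402.GR.sele_of U hangi hlat (Pool.Agent.W586.GR.selb U.disc U.nsq))) hlat

/-- a positive proportion of sign changes -/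
theorem sc (U : Un t c η) : S_SC t c η :=
  sc_of U (mr U) (Pool.Agent.W54.GR.pair_of U (Pool.Agent.W54.GR.sect U)
    (Pool.Agent.W54.GR.betw U) (Pool.Agent.W398.GR.lat U))
    (Pool.Agent.W412.GR.a0_of U (Pool.Agent.W398.GR.lat U))
    (Pool.Agent.W376.GR.u0 U.disc U.nsq)

theorem sqb (U : Un t c η) : S_SQB t c η := by
  have hlat : S_LAT t c η := Pool.Agent.W398.GR.lat U
  have hred : S_RED t c := Pool.Agent.W880.GR.red U.disc U.nsq
  have hlati : S_LATI t c η := Pool.Agent.W880.GR.lati_of U hlat hred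
  exact Pool.Agent.W500.GR.sqb_of U (Pool.Agent.W500.GR.equ_of U)
    (Pool.Agent.W340.GR.large_of U (Pool.Agent.W29.GR.mult U)) (Pool.Agent.W29.GR.ve U) hlat hlati

/-- both parts, for both signs, for positive discriminants -/
theorem both_pos (hd : 4 * c < t ^ 2) (hns : ¬ IsSquare (t ^ 2 - 4 * c)) : ∃ S : ℕ,
    ∀ e : ℤ, e = 1 ∨ e = -1 →
    (∀ ε : ℝ, 0 < ε → ∃ N₀ : ℕ, ∀ N : ℕ, N₀ ≤ N → (N : ℝ) / Real.log N ^ (2 * Real.log 2 + ε) ≤
      (Set.ncard {n : ℕ | 1 ≤ n ∧ n ≤ N ∧ SqM S e ((n : ℤ) ^ 2 + t * n + c)} : ℝ)) ∧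
    ∃ κ : ℝ, 0 < κ ∧ ∃ N₀ : ℕ, ∀ N : ℕ, N₀ ≤ N → κ * N ≤
      (Set.ncard {p : ℕ × ℕ | 1 ≤ p.1 ∧ p.1 ≤ N ∧ 1 ≤ p.2 ∧ p.2 ≤ N ∧
        (∃ n : ℤ, ((p.1 * p.2 : ℕ) : ℤ) = n ^ 2 + t * n + c) ∧
        SqM S e ((p.1 * p.2 : ℕ) : ℤ)} : ℝ) := by
  classical
  obtain ⟨η, U⟩ := Pool.Agent.W376.GR.unit hd hns
  have hlat : S_LAT t c η := Pool.Agent.W398.GR.lat U
  have hred : S_RED t c := Pool.Agent.W880.GR.red U.disc U.nsq
  have hlati : S_LATI t c η := Pool.Agent.W880.GR.lati_of U hlat hred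
  have hmult : S_MULT t c η := Pool.Agent.W29.GR.mult U
  obtain ⟨S, hS⟩ := bs_all U (sc U) (sqb U)
  refine ⟨S, fun e he => ⟨fun ε hε => ?_, pairs_of U hmult S e (hS e he)⟩⟩
  obtain ⟨N₀, h⟩ := count_of U hmult (Pool.Agent.W29.GR.typ_of U hlat hlati)
    (Pool.Agent.W29.GR.ve U) S e (hS e he) ε hε
  refine ⟨N₀, fun N hN => (h N hN).trans (le_of_eq ?_)⟩
  have e1 : {n : ℕ | 1 ≤ n ∧ n ≤ N ∧ SqM S e ((n : ℤ) ^ 2 + t * n + c)} =
      (((Finset.Icc 1 N).filter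
        (fun n : ℕ => SqM S e ((n : ℤ) ^ 2 + t * n + c)) : Finset ℕ) : Set ℕ) := by
    ext n
    rw [Finset.mem_coe, Finset.mem_filter, Finset.mem_Icc, Set.mem_setOf_eq, and_assoc]
  rw [e1, Set.ncard_coe_finset]

/-- both parts, for both signs, for every nonsquare discriminant -/
theorem both (hns : ¬ IsSquare (t ^ 2 - 4 * c)) : ∃ S : ℕ,
    ∀ e : ℤ, e = 1 ∨ e = -1 →
    (∀ ε : ℝ, 0 < ε → ∃ N₀ : ℕ, ∀ N : ℕ, N₀ ≤ N → (N : ℝ) / Real.log N ^ (2 * Real.log 2 + ε) ≤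
      (Set.ncard {n : ℕ | 1 ≤ n ∧ n ≤ N ∧ SqM S e ((n : ℤ) ^ 2 + t * n + c)} : ℝ)) ∧
    ∃ κ : ℝ, 0 < κ ∧ ∃ N₀ : ℕ, ∀ N : ℕ, N₀ ≤ N → κ * N ≤
      (Set.ncard {p : ℕ × ℕ | 1 ≤ p.1 ∧ p.1 ≤ N ∧ 1 ≤ p.2 ∧ p.2 ≤ N ∧
        (∃ n : ℤ, ((p.1 * p.2 : ℕ) : ℤ) = n ^ 2 + t * n + c) ∧
        SqM S e ((p.1 * p.2 : ℕ) : ℤ)} : ℝ) := by
  rcases lt_trichotomy (t ^ 2) (4 * c) with h | h | h
  · exact Pool.Agent.W78.GA.both_of h (Pool.Agent.W327.GA.ang1 h)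
  · exact absurd ⟨0, by rw [h]; ring⟩ hns
  · exact both_pos h hns

end Pool.Agent.W78.GR
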