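import Pool.Agent.W78.GR.T1

/-!
Project GR (helper78): the number of `n ≤ N` with `n^2+tn+c = s^2 m`, `s ≤ S`, `μ(m) = e`.
-/

set_option autoImplicit false

namespace Pool.Agent.W78.GR

open Finset Filter
open Pool.Agent.H376R2.MR
open Pool.Agent.W78.GA (SqM sq_part card_div_le four_Q)

variable {t c : ℤ} {η : (Qd t c)ˣ}

/-- the integer attached to a pair -/
def nn (e : Qd t c × Qd t c) : ℕ := (ip e.1 e.2).toNat

/-- from pairs to integers -/
theorem count_of (U : Un t c η) (hmult : S_MULT t c η) (htyp : S_TYP t c η) (hve : S_VE t c η)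
    (S : ℕ) (s : ℤ)
    (h : ∃ κ X₀ : ℝ, 0 < κ ∧ ∀ X : ℝ, X₀ ≤ X → κ * X ≤ ((Bs η S s X).card : ℝ)) (ε : ℝ)
    (hε : 0 < ε) : ∃ N₀ : ℕ, ∀ N : ℕ, N₀ ≤ N →
    (N : ℝ) / Real.log N ^ (2 * Real.log 2 + ε) ≤
    (open scoped Classical in
    ((((Icc 1 N).filter (fun n : ℕ => SqM S s ((n : ℤ) ^ 2 + t * n + c))).card : ℕ) : ℝ)) := by
  classical
  obtain ⟨b, X₁, hb, hB⟩ := h
  obtain ⟨C, hC, hve⟩ := hve
  obtain ⟨W, hW⟩ := hmult
  set κ : ℝ := min 1 (b / (8 * C)) with hκ
  have hκ0 : 0 < κ := lt_min one_pos (by positivity)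
  have hκ1 : κ ≤ 1 := min_le_left _ _
  have hκ2 : C * κ ≤ b / 8 := by
    have : κ ≤ b / (8 * C) := min_le_right _ _
    calc C * κ ≤ C * (b / (8 * C)) := mul_le_mul_of_nonneg_left this hC.le
      _ = b / 8 := by field_simp
  obtain ⟨X₂, htyp⟩ := htyp (ε / 4) (b * κ / (16 * C)) (by linarith) (by positivity)
  set g : ℝ := 2 * (1 + ε / 4) * Real.log 2 with hg
  have hlog2 : Real.log 2 < 0.6931471808 := Real.log_two_lt_d9
  have hlog2p : 0 < Real.log 2 := Real.log_pos (by norm_num)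
  have hgap : 0 < 2 * Real.log 2 + ε - g := by rw [hg]; nlinarith
  -- the exceptional pairs
  set K₀ : ℕ := ∑ n ∈ Icc (-|t|) |t|, W * ((n ^ 2 + t * n + c).natAbs).divisors.card with hK₀
  have hmain : ∀ (N : ℕ) (X : ℝ), X = (N : ℝ) / 2 → X₁ ≤ X → X₂ ≤ X → 3 ≤ X → 4 * (K₀ : ℝ) / b ≤ X →
      (|t| : ℝ) + ((t : ℝ) ^ 2 - 4 * c) ≤ N →
      b / 2 * X ≤ (W : ℝ) * ((S : ℝ) ^ 2 * Real.log N ^ g) * ((((Icc 1 N).filter
        (fun n : ℕ => SqM S s ((n : ℤ) ^ 2 + t * n + c))).card : ℕ) : ℝ) := by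
    intro N X hXN hN1 hN2 hN3 hN4 hN5
    have hXpos : (0 : ℝ) < X := by linarith
    set V₀ := (pball η X).filter (fun z =>
      (1 + ε / 4) * Real.log (Real.log X) < (((nm z).primeFactors.card : ℕ) : ℝ)) with hV₀
    have hV₀c : (V₀.card : ℝ) ≤ b * κ / (16 * C) * X := htyp X hN2
    set V := V₀ ∪ V₀.image (fun z => (η : Qd t c) * z) with hV
    have hVi : (V.card : ℝ) ≤ b * κ / (8 * C) * X := by
      have h1 : V.card ≤ V₀.card + V₀.card :=
        (card_union_le _ _).trans (Nat.add_le_add_left card_image_le _)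
      have h2 : (V.card : ℝ) ≤ V₀.card + V₀.card := by exact_mod_cast h1
      have h3 : b * κ / (8 * C) * X = b * κ / (16 * C) * X + b * κ / (16 * C) * X := by ring
      linarith
    have hVE := hve κ X V hκ0 hκ1 (by linarith)
    -- the second component
    have hV2 : ∀ e ∈ dedge η X, ¬ e.2 ∈ V →
        (((nm e.2).primeFactors.card : ℕ) : ℝ) ≤ (1 + ε / 4) * Real.log (Real.log X) := by
      intro e he hne
      by_contra hcon
      push Not at hcon
      apply hne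
      rw [hV, mem_union, mem_image]
      have he0 := he
      unfold dedge at he
      rw [mem_filter, mem_product, mem_union, mem_image] at he
      have hpr := (prim_of_dt he.2).2
      rcases he.1.2 with h3 | ⟨z, hz, h3⟩
      · left
        rw [hV₀, mem_filter]
        exact ⟨mem_filter.2 ⟨h3, hpr⟩, hcon⟩
      · right
        refine ⟨z, ?_, h3⟩
        rw [← h3, nm_mul, Un.nm_eta, one_mul] at hcon
        rw [← h3] at hpr
        rw [hV₀, mem_filter]
        exact ⟨mem_filter.2 ⟨hz, prim_of_dvd hpr (dvd_mul_left _ _)⟩, hcon⟩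
    have hV1 : ∀ e ∈ dedge η X, ¬ e.1 ∈ V →
        (((nm e.1).primeFactors.card : ℕ) : ℝ) ≤ (1 + ε / 4) * Real.log (Real.log X) := by
      intro e he hne
      by_contra hcon
      push Not at hcon
      apply hne
      rw [hV, mem_union]
      unfold dedge at he
      rw [mem_filter, mem_product] at he
      left
      rw [hV₀, mem_filter]
      exact ⟨mem_filter.2 ⟨he.1.1, (prim_of_dt he.2).1⟩, hcon⟩
    set S0 := (Bs η S s X).filter (fun e => ¬ (e.1 ∈ V ∨ e.2 ∈ V)) with hS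
    set S' := S0.filter (fun e => ¬ |ip e.1 e.2| ≤ |t|) with hS'
    have hS1 : ((Bs η S s X).card : ℝ) ≤
        (((dedge η X).filter (fun e => e.1 ∈ V ∨ e.2 ∈ V)).card : ℝ) + S0.card := by
      have : Bs η S s X ⊆ (dedge η X).filter (fun e => e.1 ∈ V ∨ e.2 ∈ V) ∪ S0 := by
        intro e he
        by_cases h7 : e.1 ∈ V ∨ e.2 ∈ V
        · exact mem_union_left _ (mem_filter.2 ⟨(mem_Bs.1 he).1, h7⟩)
        · exact mem_union_right _ (mem_filter.2 ⟨he, h7⟩)
      exact_mod_cast (card_le_card this).trans (card_union_le _ _)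
    have hdet0 : ∀ e ∈ S0, fd η e.1 ∧ (nm e.1 : ℝ) ≤ X ∧ tp e.2 ∧ (nm e.2 : ℝ) ≤ X ∧
        dt e.1 e.2 = 1 := by
      intro e he
      rw [hS, mem_filter, mem_Bs] at he
      exact U.mem_dedge.1 he.1.1
    have hS2 : (S0.card : ℝ) ≤ K₀ + S'.card := by
      have h1 : S0 ⊆ S0.filter (fun e => |ip e.1 e.2| ≤ |t|) ∪ S' := by
        intro e he
        by_cases h7 : |ip e.1 e.2| ≤ |t|
        · exact mem_union_left _ (mem_filter.2 ⟨he, h7⟩)
        · exact mem_union_right _ (mem_filter.2 ⟨he, h7⟩)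
      have h2 : (S0.filter (fun e => |ip e.1 e.2| ≤ |t|)).card ≤ K₀ := by
        have hm : ∀ e ∈ S0.filter (fun e => |ip e.1 e.2| ≤ |t|), ip e.1 e.2 ∈ Icc (-|t|) |t| := by
          intro e he
          rw [Finset.mem_Icc]
          exact abs_le.1 (mem_filter.1 he).2
        rw [card_eq_sum_card_fiberwise (f := fun e : Qd t c × Qd t c => ip e.1 e.2) hm, hK₀]
        refine sum_le_sum fun n _ => ?_
        refine fib_le U hW n _ fun e he => ?_
        obtain ⟨h3, h4⟩ := mem_filter.1 he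
        have h5 := hdet0 e (mem_filter.1 h3).1
        exact ⟨h5.1, h5.2.2.1, h5.2.2.2.2, h4⟩
      have h4 := (card_le_card h1).trans (card_union_le _ _)
      exact_mod_cast h4.trans (Nat.add_le_add_right h2 _)
    have hVE2 : C * (κ * X + (V.card : ℝ) / κ) ≤ b / 4 * X := by
      have h1 : (V.card : ℝ) / κ ≤ b / (8 * C) * X := by
        rw [div_le_iff₀ hκ0]
        calc (V.card : ℝ) ≤ b * κ / (8 * C) * X := hVi
          _ = b / (8 * C) * X * κ := by ring
      calc C * (κ * X + (V.card : ℝ) / κ) ≤ C * (κ * X + b / (8 * C) * X) := by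
            apply mul_le_mul_of_nonneg_left _ hC.le
            linarith
        _ = C * κ * X + b / 8 * X := by field_simp
        _ ≤ b / 8 * X + b / 8 * X := by nlinarith
        _ = b / 4 * X := by ring
    have hN6 : 4 * (K₀ : ℝ) ≤ b * X := by
      rw [div_le_iff₀ hb] at hN4
      linarith
    have hS3 : b / 2 * X ≤ S'.card := by
      have := hB X hN1
      linarith
    refine hS3.trans ?_
    set T := (Icc 1 N).filter (fun n : ℕ => SqM S s ((n : ℤ) ^ 2 + t * n + c)) with hT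
    -- the value of the polynomial at `nn e`
    have hval : ∀ e ∈ S', (1 ≤ nn e) ∧ (nn e : ℤ) = ip e.1 e.2 ∧
        ((NN e : ℕ) : ℤ) = (nn e : ℤ) ^ 2 + t * (nn e) + c := by
      intro e he
      obtain ⟨he1, he2⟩ := mem_filter.1 he
      obtain ⟨k1, k2, k3, k4, k5⟩ := hdet0 e he1
      have hN := NN_eq U.disc k1.1 k3 k5
      rw [not_le] at he2
      have ht0 := abs_nonneg t
      have ht1 := neg_abs_le t
      have ht2 := le_abs_self t
      have hmix := (mix_le U.disc k1.1 k3 k5 k2 k4).1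
      rw [mix_eq U.disc, k5] at hmix
      have hmix' : 0 < 2 * ip e.1 e.2 + t := by
        have : (0 : ℝ) < ((2 * ip e.1 e.2 + t : ℤ) : ℝ) := by
          push_cast
          push_cast at hmix
          linarith
        exact_mod_cast this
      have hp : 1 ≤ ip e.1 e.2 := by
        by_contra hp
        have habs : |ip e.1 e.2| = -(ip e.1 e.2) := abs_of_nonpos (by omega)
        rw [habs] at he2
        omega
      have hn : (nn e : ℤ) = ip e.1 e.2 := by
        unfold nn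
        rw [Int.toNat_of_nonneg (by omega)]
      refine ⟨by omega, hn, ?_⟩
      rw [hN, hn]
    have hmaps : ∀ e ∈ S', nn e ∈ T := by
      intro e he
      obtain ⟨v1, v2, v3⟩ := hval e he
      have he' := he
      rw [hS', mem_filter, hS, mem_filter, mem_Bs] at he'
      obtain ⟨⟨⟨he1, he2, he3⟩, -⟩, he4⟩ := he'
      obtain ⟨k1, n1, k3, n2, k5⟩ := U.mem_dedge.1 he1
      rw [hT, mem_filter, Finset.mem_Icc]
      refine ⟨⟨v1, ?_⟩, ?_⟩
      · have hmix := (mix_le U.disc k1.1 k3 k5 n1 n2).2.2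
        rw [mix_eq U.disc, k5] at hmix
        have h2 : (nn e : ℝ) = (ip e.1 e.2 : ℝ) := by exact_mod_cast v2
        rw [← h2] at hmix
        push_cast at hmix
        have h7 : -(|t| : ℝ) ≤ (t : ℝ) := neg_abs_le _
        have hD := disc_pos U.disc
        have ht0 : (0 : ℝ) ≤ (|t| : ℝ) := by positivity
        have h8 : (nn e : ℝ) ≤ N := by
          push_cast at h7 ht0 hN5
          linarith
        exact_mod_cast h8
      · obtain ⟨s', m', hs1, hs2, hs3, -, hs5⟩ :=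
          sq_part (NN_ne U.disc k1.1 k3) he2
        refine ⟨s', m', Nat.one_le_iff_ne_zero.2 hs1, hs2, ?_, by rw [hs5, he3]⟩
        rw [← v3, hs3]
        push_cast
        ring
    have hfib : ∀ n ∈ T, ((S'.filter (fun e => nn e = n)).card : ℝ) ≤
        (W : ℝ) * ((S : ℝ) ^ 2 * Real.log N ^ g) := by
      intro n _
      have hNX : X ≤ N := by rw [hXN]; linarith [(Nat.cast_nonneg N : (0 : ℝ) ≤ N)]
      rcases (S'.filter (fun e => nn e = n)).eq_empty_or_nonempty with h0 | h0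
      · rw [h0, card_empty, Nat.cast_zero]
        have : 0 ≤ Real.log N := Real.log_nonneg (by linarith)
        positivity
      · obtain ⟨e₀, he₀⟩ := h0
        have hmem := (mem_filter.1 he₀).1
        obtain ⟨v1, v2, v3⟩ := hval e₀ hmem
        rw [mem_filter, hS', mem_filter, hS, mem_filter, mem_Bs] at he₀
        obtain ⟨⟨⟨⟨he1, he2, he3⟩, he5⟩, he4⟩, he6⟩ := he₀
        obtain ⟨k1, n1, k3, n2, k5⟩ := U.mem_dedge.1 he1
        rw [he6] at v3
        have hω : (((NN e₀).primeFactors.card : ℕ) : ℝ) ≤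
            2 * (1 + ε / 4) * Real.log (Real.log X) := by
          have h1 := hV1 e₀ he1 (fun hh => he5 (Or.inl hh))
          have h2 := hV2 e₀ he1 (fun hh => he5 (Or.inr hh))
          have h3 : (NN e₀).primeFactors.card ≤
              (nm e₀.1).primeFactors.card + (nm e₀.2).primeFactors.card := by
            unfold NN
            rw [Nat.primeFactors_mul (nm_pos U.disc k1.1).ne' (nm_pos U.disc k3).ne']
            exact card_union_le _ _
          have h3' : (((NN e₀).primeFactors.card : ℕ) : ℝ) ≤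
              (nm e₀.1).primeFactors.card + (nm e₀.2).primeFactors.card := by exact_mod_cast h3
          linarith
        have hlogX : 0 < Real.log X := Real.log_pos (by linarith)
        have hlogXN : Real.log X ≤ Real.log N := Real.log_le_log hXpos hNX
        have hg0 : 0 ≤ g := by rw [hg]; positivity
        have hdiv : (((NN e₀).divisors.card : ℕ) : ℝ) ≤ (S : ℝ) ^ 2 * Real.log N ^ g := by
          have h1 := card_div_le (NN_ne U.disc k1.1 k3) he2
          have h2 : (((NN e₀).divisors.card : ℕ) : ℝ) ≤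
              (S : ℝ) ^ 2 * (2 : ℝ) ^ ((NN e₀).primeFactors.card) := by
            exact_mod_cast h1
          refine h2.trans (mul_le_mul_of_nonneg_left ?_ (by positivity))
          calc (2 : ℝ) ^ ((NN e₀).primeFactors.card)
              = (2 : ℝ) ^ (((NN e₀).primeFactors.card : ℕ) : ℝ) := (Real.rpow_natCast _ _).symm
            _ ≤ (2 : ℝ) ^ (2 * (1 + ε / 4) * Real.log (Real.log X)) :=
                Real.rpow_le_rpow_of_exponent_le (by norm_num) hω
            _ = Real.log X ^ g := by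
                rw [Real.rpow_def_of_pos (by norm_num), Real.rpow_def_of_pos hlogX, hg]
                congr 1
                ring
            _ ≤ Real.log N ^ g := Real.rpow_le_rpow hlogX.le hlogXN hg0
        have hc1 := fib_le U hW n (S'.filter (fun e => nn e = n)) (fun e he => by
          rw [mem_filter] at he
          have h5 := hdet0 e (mem_filter.1 he.1).1
          refine ⟨h5.1, h5.2.2.1, h5.2.2.2.2, ?_⟩
          rw [← (hval e he.1).2.1, he.2])
        have hn1 : ((n : ℤ) ^ 2 + t * n + c).natAbs = NN e₀ := by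
          rw [← v3, Int.natAbs_natCast]
        rw [hn1] at hc1
        have h8 : ((S'.filter (fun e => nn e = n)).card : ℝ) ≤
            (W : ℝ) * (((NN e₀).divisors.card : ℕ) : ℝ) := by exact_mod_cast hc1
        exact h8.trans (mul_le_mul_of_nonneg_left hdiv (Nat.cast_nonneg _))
    have hsum : (S'.card : ℝ) =
        ∑ n ∈ T, ((S'.filter (fun e => nn e = n)).card : ℝ) := by
      have := card_eq_sum_card_fiberwise (s := S') (t := T)
        (f := fun e : Qd t c × Qd t c => nn e) hmaps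
      rw [this]
      push_cast
      rfl
    rw [hsum]
    refine (sum_le_sum hfib).trans ?_
    rw [sum_const, nsmul_eq_mul]
    linarith
  -- conclusion
  have hev : ∀ᶠ x : ℝ in atTop, 4 * (W : ℝ) * (S : ℝ) ^ 2 / b ≤ Real.log x ^ (2 * Real.log 2 + ε - g) :=
    ((tendsto_rpow_atTop hgap).comp Real.tendsto_log_atTop).eventually_ge_atTop _
  obtain ⟨x₀, hx₀⟩ := eventually_atTop.1 hev
  refine ⟨⌈max (max (2 * X₁) (2 * X₂)) (max (max x₀ (8 * (K₀ : ℝ) / b)) ((|t| : ℝ) + ((t : ℝ) ^ 2 - 4 * c)))⌉₊ + 6,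
    fun N hN => ?_⟩
  have hN' : max (max (2 * X₁) (2 * X₂)) (max (max x₀ (8 * (K₀ : ℝ) / b)) ((|t| : ℝ) + ((t : ℝ) ^ 2 - 4 * c))) ≤ (N : ℝ) := by
    refine (Nat.le_ceil _).trans ?_
    exact_mod_cast (by omega : ⌈max (max (2 * X₁) (2 * X₂))
      (max (max x₀ (8 * (K₀ : ℝ) / b)) ((|t| : ℝ) + ((t : ℝ) ^ 2 - 4 * c)))⌉₊ ≤ N)
  have h1 : 2 * X₁ ≤ (N : ℝ) := (le_max_left _ _).trans ((le_max_left _ _).trans hN')
  have h2 : 2 * X₂ ≤ (N : ℝ) := (le_max_right _ _).trans ((le_max_left _ _).trans hN')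
  have h3 : x₀ ≤ (N : ℝ) :=
    (le_max_left _ _).trans ((le_max_left _ _).trans ((le_max_right _ _).trans hN'))
  have h4 : 8 * (K₀ : ℝ) / b ≤ (N : ℝ) :=
    (le_max_right _ _).trans ((le_max_left _ _).trans ((le_max_right _ _).trans hN'))
  have h4' : (|t| : ℝ) + ((t : ℝ) ^ 2 - 4 * c) ≤ (N : ℝ) := (le_max_right _ _).trans ((le_max_right _ _).trans hN')
  have hN3 : 6 ≤ N := by omega
  have hNr : (6 : ℝ) ≤ N := by exact_mod_cast hN3
  have h4'' : 4 * (K₀ : ℝ) / b ≤ (N : ℝ) / 2 := by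
    have : 8 * (K₀ : ℝ) / b = 2 * (4 * (K₀ : ℝ) / b) := by ring
    linarith
  have h5 := hmain N (N / 2) rfl (by linarith) (by linarith) (by linarith) h4'' h4'
  have h6 := hx₀ N h3
  have hlogpos : 0 < Real.log N := Real.log_pos (by linarith)
  generalize ((((Icc 1 N).filter
        (fun n : ℕ => SqM S s ((n : ℤ) ^ 2 + t * n + c))).card : ℕ) : ℝ) = τ at h5 ⊢
  have hgp : 0 < Real.log N ^ g := Real.rpow_pos_of_pos hlogpos _
  have hsplit : Real.log N ^ (2 * Real.log 2 + ε) =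
      Real.log N ^ (2 * Real.log 2 + ε - g) * Real.log N ^ g := by
    rw [← Real.rpow_add hlogpos]
    congr 1
    ring
  rw [div_le_iff₀ (Real.rpow_pos_of_pos hlogpos _), hsplit]
  have ht : 0 ≤ τ := by
    by_contra hneg
    push Not at hneg
    have : 0 < b / 2 * (N / 2) := by positivity
    have h8 : (W : ℝ) * ((S : ℝ) ^ 2 * Real.log N ^ g) * τ ≤ 0 :=
      mul_nonpos_of_nonneg_of_nonpos (by positivity) hneg.le
    linarith
  have h7 : (N : ℝ) ≤ 4 * (W : ℝ) * (S : ℝ) ^ 2 / b * (Real.log N ^ g * τ) := by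
    rw [div_mul_eq_mul_div, le_div_iff₀ hb]
    linarith
  calc (N : ℝ) ≤ 4 * (W : ℝ) * (S : ℝ) ^ 2 / b * (Real.log N ^ g * τ) := h7
    _ ≤ Real.log N ^ (2 * Real.log 2 + ε - g) * (Real.log N ^ g * τ) := by
        apply mul_le_mul_of_nonneg_right h6 (by positivity)
    _ = τ * (Real.log N ^ (2 * Real.log 2 + ε - g) * Real.log N ^ g) := by ring

/-- a positive proportion of the factorizations -/
theorem pairs_of (U : Un t c η) (hmult : S_MULT t c η) (S : ℕ) (e : ℤ)
    (h : ∃ κ X₀ : ℝ, 0 < κ ∧ ∀ X : ℝ, X₀ ≤ X → κ * X ≤ ((Bs η S e X).card : ℝ)) :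
    ∃ κ : ℝ, 0 < κ ∧ ∃ N₀ : ℕ, ∀ N : ℕ, N₀ ≤ N → κ * N ≤
    (Set.ncard {p : ℕ × ℕ | 1 ≤ p.1 ∧ p.1 ≤ N ∧ 1 ≤ p.2 ∧ p.2 ≤ N ∧
      (∃ n : ℤ, ((p.1 * p.2 : ℕ) : ℤ) = n ^ 2 + t * n + c) ∧ SqM S e ((p.1 * p.2 : ℕ) : ℤ)} : ℝ) := by
  classical
  obtain ⟨κ, X₀, hκ, h⟩ := h
  obtain ⟨W, hW⟩ := hmult
  refine ⟨κ / (2 * W + 1), by positivity, ⌈X₀⌉₊, fun N hN => ?_⟩
  have hX : X₀ ≤ (N : ℝ) := (Nat.le_ceil _).trans (by exact_mod_cast hN)
  have h1 := h N hX
  set T := (Icc 1 N ×ˢ Icc 1 N).filter (fun p : ℕ × ℕ =>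
    (∃ n : ℤ, ((p.1 * p.2 : ℕ) : ℤ) = n ^ 2 + t * n + c) ∧ SqM S e ((p.1 * p.2 : ℕ) : ℤ)) with hT
  have hmaps : ∀ x ∈ Bs η S e (N : ℝ),
      (fun x : Qd t c × Qd t c => (nm x.1, nm x.2)) x ∈ T := by
    intro x hx
    obtain ⟨hx1, hx2, hx3⟩ := mem_Bs.1 hx
    obtain ⟨k1, n1, k3, n2, k5⟩ := U.mem_dedge.1 hx1
    have hnn := NN_eq U.disc k1.1 k3 k5
    rw [hT, mem_filter, mem_product, Finset.mem_Icc, Finset.mem_Icc]
    refine ⟨⟨⟨nm_pos U.disc k1.1, by exact_mod_cast n1⟩,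
      ⟨nm_pos U.disc k3, by exact_mod_cast n2⟩⟩, ⟨_, hnn⟩, ?_⟩
    obtain ⟨s', m', hs1, hs2, hs3, -, hs5⟩ := sq_part (NN_ne U.disc k1.1 k3) hx2
    refine ⟨s', m', Nat.one_le_iff_ne_zero.2 hs1, hs2, ?_, by rw [hs5, hx3]⟩
    change ((NN x : ℕ) : ℤ) = _
    rw [hs3]
    push_cast
    ring
  have hfib : ∀ p ∈ T, ((Bs η S e (N : ℝ)).filter (fun x => (nm x.1, nm x.2) = p)).card ≤
      2 * W := by
    intro p hp
    rcases ((Bs η S e (N : ℝ)).filter (fun x => (nm x.1, nm x.2) = p)).eq_empty_or_nonempty with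
      h0 | ⟨x₀, hx₀⟩
    · rw [h0]; simp
    obtain ⟨k1, k2⟩ := mem_filter.1 hx₀
    obtain ⟨l1, l2, l3, l4, l5⟩ := U.mem_dedge.1 (mem_Bs.1 k1).1
    have k4 := NN_eq U.disc l1.1 l3 l5
    set n := ip x₀.1 x₀.2 with hn
    have hsub : (Bs η S e (N : ℝ)).filter (fun x => (nm x.1, nm x.2) = p) ⊆
        (Bs η S e (N : ℝ)).filter (fun x => (nm x.1, nm x.2) = p ∧ ip x.1 x.2 = n) ∪
        (Bs η S e (N : ℝ)).filter (fun x => (nm x.1, nm x.2) = p ∧ ip x.1 x.2 = -t - n) := by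
      intro x hx
      obtain ⟨g1, g2⟩ := mem_filter.1 hx
      obtain ⟨m1, m2, m3, m4, m5⟩ := U.mem_dedge.1 (mem_Bs.1 g1).1
      have g4 := NN_eq U.disc m1.1 m3 m5
      have g5 : NN x = NN x₀ := by
        have := g2.trans k2.symm
        rw [Prod.mk.injEq] at this
        unfold NN
        rw [this.1, this.2]
      rw [g5, k4] at g4
      have g6 : (ip x.1 x.2 - n) * (ip x.1 x.2 - (-t - n)) = 0 := by linear_combination -g4
      rcases mul_eq_zero.1 g6 with g7 | g7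
      · exact mem_union_left _ (mem_filter.2 ⟨g1, g2, by linarith⟩)
      · exact mem_union_right _ (mem_filter.2 ⟨g1, g2, by linarith⟩)
    have hc4 : ∀ m : ℤ, ((Bs η S e (N : ℝ)).filter
        (fun x => (nm x.1, nm x.2) = p ∧ ip x.1 x.2 = m)).card ≤ W := by
      intro m
      refine hW m p.1 _ (fun x hx => ?_)
      obtain ⟨g1, g2, g3⟩ := mem_filter.1 hx
      obtain ⟨m1, m2, m3, m4, m5⟩ := U.mem_dedge.1 (mem_Bs.1 g1).1
      refine ⟨m1, m5, g3, ?_⟩
      rw [← g2]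
    have := (card_le_card hsub).trans
      ((card_union_le _ _).trans (Nat.add_le_add (hc4 n) (hc4 (-t - n))))
    omega
  have hcard : (Bs η S e (N : ℝ)).card ≤ (2 * W) * T.card :=
    card_le_mul_card_image_of_maps_to hmaps (2 * W) hfib
  have hcard' : ((Bs η S e (N : ℝ)).card : ℝ) ≤ (2 * W + 1) * (T.card : ℝ) := by
    have h2 : (Bs η S e (N : ℝ)).card ≤ (2 * W + 1) * T.card :=
      hcard.trans (Nat.mul_le_mul_right _ (by omega))
    exact_mod_cast h2
  have hset : {p : ℕ × ℕ | 1 ≤ p.1 ∧ p.1 ≤ N ∧ 1 ≤ p.2 ∧ p.2 ≤ N ∧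
      (∃ n : ℤ, ((p.1 * p.2 : ℕ) : ℤ) = n ^ 2 + t * n + c) ∧ SqM S e ((p.1 * p.2 : ℕ) : ℤ)} =
      (T : Set (ℕ × ℕ)) := by
    ext p
    rw [hT]
    simp only [Set.mem_setOf_eq, coe_filter, mem_product, Finset.mem_Icc]
    tauto
  rw [hset, Set.ncard_coe_finset, div_mul_eq_mul_div, div_le_iff₀ (by positivity)]
  linarith

end Pool.Agent.W78.GR
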